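import Mathlib

/-! # A noise inequality on the discrete cube -/

open Finset

namespace Q171.ERW

variable {ι : Type*} [DecidableEq ι]

/-- One-coordinate kernel. -/
def ker (m v : ι → ℝ) (T T' : Finset ι) (c : ι) : ℝ :=
  (if c ∈ T then m c else 1 - m c) * (if c ∈ T' then m c else 1 - m c)
    + (if (c ∈ T ↔ c ∈ T') then v c else - v c)

/-- One-coordinate mass. -/
def mas (m : ι → ℝ) (T : Finset ι) (c : ι) : ℝ := if c ∈ T then m c else 1 - m c

lemma mas_insert_of_ne (m : ι → ℝ) (T : Finset ι) {a c : ι} (h : c ≠ a) :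
    mas m (insert a T) c = mas m T c := by simp [mas, h]

lemma ker_insert_left (m v : ι → ℝ) (T T' : Finset ι) {a c : ι} (h : c ≠ a) :
    ker m v (insert a T) T' c = ker m v T T' c := by simp [ker, h]

lemma ker_insert_right (m v : ι → ℝ) (T T' : Finset ι) {a c : ι} (h : c ≠ a) :
    ker m v T (insert a T') c = ker m v T T' c := by simp [ker, h]

/-- Mean. -/
def MM (m : ι → ℝ) (S : Finset ι) (f : Finset ι → ℝ) : ℝ :=
  ∑ T ∈ S.powerset, (∏ c ∈ S, mas m T c) * f T

/-- Quadratic form. -/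
def QQ (m v : ι → ℝ) (S : Finset ι) (f : Finset ι → ℝ) : ℝ :=
  ∑ T ∈ S.powerset, ∑ T' ∈ S.powerset, (∏ c ∈ S, ker m v T T' c) * (f T * f T')

lemma MM_insert (m : ι → ℝ) {S : Finset ι} {a : ι} (ha : a ∉ S) (f : Finset ι → ℝ) :
    MM m (insert a S) f = MM m S (fun T => m a * f (insert a T) + (1 - m a) * f T) := by
  unfold MM
  rw [sum_powerset_insert ha, ← sum_add_distrib]
  apply sum_congr rfl
  intro T hT
  have haT : a ∉ T := fun h => ha (mem_powerset.1 hT h)
  rw [prod_insert ha, prod_insert ha]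
  have e3 : ∏ c ∈ S, mas m (insert a T) c = ∏ c ∈ S, mas m T c := by
    apply prod_congr rfl
    intro c hc
    exact mas_insert_of_ne m T (fun h => ha (h ▸ hc))
  rw [e3]
  simp only [mas, haT, if_false, mem_insert_self, if_true]
  ring

lemma QQ_insert (m v : ι → ℝ) {S : Finset ι} {a : ι} (ha : a ∉ S) (f : Finset ι → ℝ) :
    QQ m v (insert a S) f = QQ m v S (fun T => m a * f (insert a T) + (1 - m a) * f T)
      + v a * QQ m v S (fun T => f (insert a T) - f T) := by
  unfold QQ
  rw [sum_powerset_insert ha, ← sum_add_distrib]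
  rw [mul_sum, ← sum_add_distrib]
  apply sum_congr rfl
  intro T hT
  have haT : a ∉ T := fun h => ha (mem_powerset.1 hT h)
  rw [sum_powerset_insert ha, sum_powerset_insert ha, ← sum_add_distrib, ← sum_add_distrib,
    ← sum_add_distrib, mul_sum, ← sum_add_distrib]
  apply sum_congr rfl
  intro T' hT'
  have haT' : a ∉ T' := fun h => ha (mem_powerset.1 hT' h)
  have e1 : ∏ c ∈ S, ker m v (insert a T) T' c = ∏ c ∈ S, ker m v T T' c :=
    prod_congr rfl fun c hc => ker_insert_left m v T T' (fun h => ha (h ▸ hc))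
  have e2 : ∏ c ∈ S, ker m v T (insert a T') c = ∏ c ∈ S, ker m v T T' c :=
    prod_congr rfl fun c hc => ker_insert_right m v T T' (fun h => ha (h ▸ hc))
  have e3 : ∏ c ∈ S, ker m v (insert a T) (insert a T') c = ∏ c ∈ S, ker m v T T' c :=
    prod_congr rfl fun c hc => by
      have hca : c ≠ a := fun h => ha (h ▸ hc)
      rw [ker_insert_left m v T _ hca, ker_insert_right m v T T' hca]
  simp only [prod_insert ha, e1, e2, e3]
  generalize ∏ c ∈ S, ker m v T T' c = P
  simp only [ker, haT, haT', if_false, mem_insert_self, if_true, iff_false, not_true, false_iff]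
  ring

lemma MM_nonneg {m : ι → ℝ} {S : Finset ι} (hm : ∀ c ∈ S, 0 ≤ m c ∧ m c ≤ 1)
    {f : Finset ι → ℝ} (hf : ∀ T, 0 ≤ f T) : 0 ≤ MM m S f := by
  apply sum_nonneg
  intro T _
  apply mul_nonneg _ (hf T)
  apply prod_nonneg
  intro c hc
  have := hm c hc
  unfold mas
  split_ifs <;> linarith

lemma MM_mono {m : ι → ℝ} {S : Finset ι} (hm : ∀ c ∈ S, 0 ≤ m c ∧ m c ≤ 1)
    {f g : Finset ι → ℝ} (hfg : ∀ T, f T ≤ g T) : MM m S f ≤ MM m S g := by
  apply sum_le_sum
  intro T _
  apply mul_le_mul_of_nonneg_left (hfg T)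
  apply prod_nonneg
  intro c hc
  have := hm c hc
  unfold mas
  split_ifs <;> linarith

lemma MM_add_smul (m : ι → ℝ) (S : Finset ι) (f g : Finset ι → ℝ) (a : ℝ) :
    MM m S (fun T => f T + a * g T) = MM m S f + a * MM m S g := by
  unfold MM
  rw [mul_sum, ← sum_add_distrib]
  apply sum_congr rfl
  intro T _
  ring

lemma MM_sq_le {m : ι → ℝ} {S : Finset ι} (hm : ∀ c ∈ S, 0 ≤ m c ∧ m c ≤ 1)
    (f : Finset ι → ℝ) : (MM m S f) ^ 2 ≤ MM m S (fun T => f T ^ 2) := by
  induction S using Finset.induction_on generalizing f with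
  | empty => simp [MM]
  | insert a S ha ih =>
    rw [MM_insert m ha, MM_insert m ha]
    refine le_trans (ih (fun c hc => hm c (mem_insert_of_mem hc)) _) ?_
    apply MM_mono (fun c hc => hm c (mem_insert_of_mem hc))
    intro T
    have h1 := hm a (mem_insert_self a S)
    nlinarith [mul_nonneg (mul_nonneg h1.1 (sub_nonneg.2 h1.2)) (sq_nonneg (f (insert a T) - f T))]

/-- **Noise inequality.** -/
theorem QQ_le {m v : ι → ℝ} {r : ℝ} (hr : 0 ≤ r ∧ r ≤ 1) {S : Finset ι}
    (hm : ∀ c ∈ S, 0 ≤ m c ∧ m c ≤ 1) (hv : ∀ c ∈ S, 0 ≤ v c ∧ v c ≤ r * (m c * (1 - m c)))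
    (f : Finset ι → ℝ) :
    QQ m v S f ≤ (1 - r) * (MM m S f) ^ 2 + r * MM m S (fun T => f T ^ 2) := by
  induction S using Finset.induction_on generalizing f with
  | empty =>
    simp only [QQ, MM, powerset_empty, sum_singleton, prod_empty]
    nlinarith
  | insert a S ha ih =>
    have hm' : ∀ c ∈ S, 0 ≤ m c ∧ m c ≤ 1 := fun c hc => hm c (mem_insert_of_mem hc)
    have hv' : ∀ c ∈ S, 0 ≤ v c ∧ v c ≤ r * (m c * (1 - m c)) :=
      fun c hc => hv c (mem_insert_of_mem hc)
    rw [QQ_insert m v ha, MM_insert m ha, MM_insert m ha]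
    set g : Finset ι → ℝ := fun T => m a * f (insert a T) + (1 - m a) * f T with hg
    set k : Finset ι → ℝ := fun T => f (insert a T) - f T with hk
    have h1 := ih hm' hv' g
    have h2 := ih hm' hv' k
    have h3 := MM_sq_le hm' k
    have h4 : (fun T => m a * f (insert a T) ^ 2 + (1 - m a) * f T ^ 2)
        = fun T => g T ^ 2 + (m a * (1 - m a)) * (k T ^ 2) := by
      funext T
      simp only [hg, hk]
      ring
    have h8 := MM_add_smul m S (fun T => g T ^ 2) (fun T => k T ^ 2) (m a * (1 - m a))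
    rw [h4, h8]
    have h5 : QQ m v S k ≤ MM m S (fun T => k T ^ 2) := by nlinarith
    have h6 := hv a (mem_insert_self a S)
    have h7 : 0 ≤ MM m S (fun T => k T ^ 2) := MM_nonneg hm' (fun T => sq_nonneg _)
    nlinarith [mul_le_mul_of_nonneg_left h5 h6.1, mul_le_mul_of_nonneg_right h6.2 h7]

end Q171.ERW
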