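import Mathlib

/-! # Excited random walk on `ℤ` in a cookie environment: definitions and finite formulas -/

open Finset

namespace Q171.ERW

/-- Position after the steps recorded in `h` (latest step first, `true` is `+1`, `false` is `-1`),
started at `0`. -/
def pos : List Bool → ℤ
  | [] => 0
  | b :: h => pos h + (if b then 1 else -1)

/-- The number of times `m < n` with `X_m = z`, where `n` is the length of `h`. -/
def prior (z : ℤ) : List Bool → ℕ
  | [] => 0
  | _ :: h => prior z h + (if pos h = z then 1 else 0)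

/-- The cookie used for the next step: the present site together with the number
`#{m ≤ n : X_m = X_n}` of visits to it up to the present time (included). -/
def cookie (h : List Bool) : ℤ × ℕ := (pos h, prior (pos h) h + 1)

/-- Expectation of `Φ` (history of the first `n` steps) for the process on `±1` steps whose
conditional probability of the step `+1`, given the history `h`, is `p h`. -/
def Ex (p : List Bool → ℝ) : ℕ → (List Bool → ℝ) → ℝ
  | 0, Φ => Φ []
  | n + 1, Φ => Ex p n (fun h => p h * Φ (true :: h) + (1 - p h) * Φ (false :: h))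

/-! ### Linear structure of `Ex` -/

lemma Ex_add (p : List Bool → ℝ) (n : ℕ) (Φ Ψ : List Bool → ℝ) :
    Ex p n (fun h => Φ h + Ψ h) = Ex p n Φ + Ex p n Ψ := by
  induction n generalizing Φ Ψ with
  | zero => rfl
  | succ n ih =>
    simp only [Ex]
    rw [← ih]
    congr 1
    funext h
    ring

lemma Ex_smul (p : List Bool → ℝ) (n : ℕ) (a : ℝ) (Φ : List Bool → ℝ) :
    Ex p n (fun h => a * Φ h) = a * Ex p n Φ := by
  induction n generalizing Φ with
  | zero => rfl
  | succ n ih =>
    simp only [Ex]
    rw [← ih]
    congr 1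
    funext h
    ring

lemma Ex_const (p : List Bool → ℝ) (n : ℕ) (a : ℝ) : Ex p n (fun _ => a) = a := by
  induction n with
  | zero => rfl
  | succ n ih =>
    simp only [Ex]
    have : (fun h : List Bool => p h * a + (1 - p h) * a) = fun _ => a := by
      funext h; ring
    rw [this, ih]

lemma Ex_sub (p : List Bool → ℝ) (n : ℕ) (Φ Ψ : List Bool → ℝ) :
    Ex p n (fun h => Φ h - Ψ h) = Ex p n Φ - Ex p n Ψ := by
  have h1 := Ex_add p n (fun h => Φ h - Ψ h) Ψ
  have h2 : (fun h => Φ h - Ψ h + Ψ h) = Φ := by funext h; ring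
  rw [h2] at h1
  linarith

lemma Ex_mono {p : List Bool → ℝ} (hp : ∀ h, 0 ≤ p h ∧ p h ≤ 1) (n : ℕ)
    {Φ Ψ : List Bool → ℝ} (hle : ∀ h, h.length = n → Φ h ≤ Ψ h) : Ex p n Φ ≤ Ex p n Ψ := by
  induction n generalizing Φ Ψ with
  | zero => exact hle [] rfl
  | succ n ih =>
    simp only [Ex]
    apply ih
    intro h hh
    have h1 := hle (true :: h) (by simp [hh])
    have h2 := hle (false :: h) (by simp [hh])
    have h3 := (hp h).1
    have h4 := (hp h).2
    nlinarith [mul_le_mul_of_nonneg_left h1 h3, mul_le_mul_of_nonneg_left h2 (sub_nonneg.2 h4)]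

lemma Ex_nonneg {p : List Bool → ℝ} (hp : ∀ h, 0 ≤ p h ∧ p h ≤ 1) (n : ℕ)
    {Φ : List Bool → ℝ} (h0 : ∀ h, 0 ≤ Φ h) : 0 ≤ Ex p n Φ := by
  have := Ex_mono hp n (Φ := fun _ => 0) (Ψ := Φ) (fun h _ => h0 h)
  rwa [Ex_const] at this

lemma Ex_le_one {p : List Bool → ℝ} (hp : ∀ h, 0 ≤ p h ∧ p h ≤ 1) (n : ℕ)
    {Φ : List Bool → ℝ} (h1 : ∀ h, Φ h ≤ 1) : Ex p n Φ ≤ 1 := by
  have := Ex_mono hp n (Φ := Φ) (Ψ := fun _ => 1) (fun h _ => h1 h)
  rwa [Ex_const] at this

/-- Supermartingales have decreasing expectation. -/
lemma Ex_super {p : List Bool → ℝ} (hp : ∀ h, 0 ≤ p h ∧ p h ≤ 1) (n : ℕ)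
    {Φ : List Bool → ℝ} (hs : ∀ h, p h * Φ (true :: h) + (1 - p h) * Φ (false :: h) ≤ Φ h) :
    Ex p n Φ ≤ Φ [] := by
  induction n with
  | zero => exact le_rfl
  | succ n ih =>
    exact le_trans (Ex_mono hp n (fun h _ => hs h)) ih

/-- Martingales have constant expectation. -/
lemma Ex_mart {p : List Bool → ℝ} (n : ℕ)
    {Φ : List Bool → ℝ} (hs : ∀ h, p h * Φ (true :: h) + (1 - p h) * Φ (false :: h) = Φ h) :
    Ex p n Φ = Φ [] := by
  induction n with
  | zero => rfl
  | succ n ih =>
    simp only [Ex]
    rw [← ih]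
    congr 1
    funext h
    exact hs h

lemma Ex_congr {p p' : List Bool → ℝ} (n : ℕ) (hpp : ∀ h, h.length < n → p h = p' h)
    {Φ Ψ : List Bool → ℝ} (hle : ∀ h, h.length = n → Φ h = Ψ h) : Ex p n Φ = Ex p' n Ψ := by
  induction n generalizing Φ Ψ with
  | zero => exact hle [] rfl
  | succ n ih =>
    simp only [Ex]
    apply ih
    · intro h hh
      exact hpp h (by omega)
    · intro h hh
      rw [hle (true :: h) (by simp [hh]), hle (false :: h) (by simp [hh]), hpp h (by omega)]

/-! ### Expansion over paths -/

/-- All histories of length `n`. -/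
def paths : ℕ → Finset (List Bool)
  | 0 => {[]}
  | n + 1 => (paths n).image (fun h => true :: h) ∪ (paths n).image (fun h => false :: h)

/-- The weight of a history. -/
def Wt (p : List Bool → ℝ) : List Bool → ℝ
  | [] => 1
  | b :: h => Wt p h * (if b then p h else 1 - p h)

lemma sum_paths_succ (n : ℕ) (F : List Bool → ℝ) :
    ∑ h ∈ paths (n + 1), F h = ∑ h ∈ paths n, (F (true :: h) + F (false :: h)) := by
  rw [paths, sum_union, sum_image, sum_image, sum_add_distrib]
  · intro a _ b _ hab
    simpa using hab
  · intro a _ b _ hab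
    simpa using hab
  · rw [Finset.disjoint_left]
    intro a ha hb
    simp only [mem_image] at ha hb
    obtain ⟨x, _, rfl⟩ := ha
    obtain ⟨y, _, hy⟩ := hb
    simp at hy

lemma Ex_eq_sum (p : List Bool → ℝ) (n : ℕ) (Φ : List Bool → ℝ) :
    Ex p n Φ = ∑ h ∈ paths n, Wt p h * Φ h := by
  induction n generalizing Φ with
  | zero => simp [Ex, paths, Wt]
  | succ n ih =>
    rw [sum_paths_succ]
    simp only [Ex, ih, Wt, if_true]
    apply sum_congr rfl
    intro h _
    simp only [Bool.false_eq_true, if_false]
    ring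

/-! ### Cookies are used at most once -/

/-- The set of cookies used along a history. -/
def used : List Bool → Finset (ℤ × ℕ)
  | [] => ∅
  | _ :: h => insert (cookie h) (used h)

lemma prior_le_cons (z : ℤ) (b : Bool) (h : List Bool) : prior z h ≤ prior z (b :: h) := by
  simp [prior]

lemma le_prior_of_used {h : List Bool} {c : ℤ × ℕ} (hc : c ∈ used h) : c.2 ≤ prior c.1 h := by
  induction h with
  | nil => simp [used] at hc
  | cons b h ih =>
    simp only [used, mem_insert] at hc
    rcases hc with rfl | hc
    · simp [cookie, prior]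
    · exact le_trans (ih hc) (prior_le_cons _ _ _)

lemma cookie_notMem_used (h : List Bool) : cookie h ∉ used h := by
  intro hc
  have := le_prior_of_used hc
  simp [cookie] at this

lemma Wt_update_of_notMem (w : ℤ × ℕ → ℝ) (c : ℤ × ℕ) (x : ℝ) {h : List Bool}
    (hc : c ∉ used h) :
    Wt (fun h => Function.update w c x (cookie h)) h = Wt (fun h => w (cookie h)) h := by
  induction h with
  | nil => rfl
  | cons b h ih =>
    simp only [used, mem_insert, not_or] at hc
    have h1 : Function.update w c x (cookie h) = w (cookie h) :=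
      Function.update_of_ne (fun h => hc.1 h.symm) _ _
    simp only [Wt, ih hc.2, h1]

lemma Wt_affine (w : ℤ × ℕ → ℝ) (c : ℤ × ℕ) (h : List Bool) :
    Wt (fun h => w (cookie h)) h
      = w c * Wt (fun h => Function.update w c 1 (cookie h)) h
        + (1 - w c) * Wt (fun h => Function.update w c 0 (cookie h)) h := by
  induction h with
  | nil => simp [Wt]
  | cons b h ih =>
    by_cases hc : c = cookie h
    · have hn : c ∉ used h := by rw [hc]; exact cookie_notMem_used h
      simp only [Wt, Wt_update_of_notMem w c _ hn, ← hc, Function.update_self]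
      cases b <;> simp <;> ring
    · have hne : ∀ x : ℝ, Function.update w c x (cookie h) = w (cookie h) := fun x =>
        Function.update_of_ne (fun h => hc h.symm) _ _
      simp only [Wt, hne]
      rw [ih]
      ring

/-- Expectation in the environment `w`. -/
def EW (w : ℤ × ℕ → ℝ) (n : ℕ) (Φ : List Bool → ℝ) : ℝ := Ex (fun h => w (cookie h)) n Φ

lemma EW_affine (w : ℤ × ℕ → ℝ) (c : ℤ × ℕ) (n : ℕ) (Φ : List Bool → ℝ) :
    EW w n Φ = w c * EW (Function.update w c 1) n Φ
      + (1 - w c) * EW (Function.update w c 0) n Φ := by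
  simp only [EW, Ex_eq_sum, mul_sum, ← sum_add_distrib]
  apply sum_congr rfl
  intro h _
  rw [Wt_affine w c h]
  ring

/-- The factor of the coordinate `c` in the weight of a set `T` of right-pointing cookies. -/
def fac (w : ℤ × ℕ → ℝ) (T : Finset (ℤ × ℕ)) (c : ℤ × ℕ) : ℝ := if c ∈ T then w c else 1 - w c

/-- Deterministic environment of a set. -/
def ind (T : Finset (ℤ × ℕ)) (c : ℤ × ℕ) : ℝ := if c ∈ T then 1 else 0

lemma EW_stack_aux (w : ℤ × ℕ → ℝ) (S : Finset (ℤ × ℕ)) (n : ℕ) (Φ : List Bool → ℝ) :
    EW w n Φ = ∑ T ∈ S.powerset, (∏ c ∈ S, fac w T c)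
      * EW (fun c => if c ∈ S then ind T c else w c) n Φ := by
  induction S using Finset.induction_on with
  | empty => simp
  | insert a S ha ih =>
    rw [sum_powerset_insert ha, ih, ← sum_add_distrib]
    apply sum_congr rfl
    intro T hT
    have haT : a ∉ T := fun h => ha (mem_powerset.1 hT h)
    rw [EW_affine _ a, prod_insert ha, prod_insert ha]
    have e1 : (Function.update (fun c => if c ∈ S then ind T c else w c) a 1)
        = (fun c => if c ∈ insert a S then ind (insert a T) c else w c) := by
      funext c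
      by_cases hc : c = a
      · subst hc; simp [ind]
      · rw [Function.update_of_ne hc]
        simp [hc, ind]
    have e2 : (Function.update (fun c => if c ∈ S then ind T c else w c) a 0)
        = (fun c => if c ∈ insert a S then ind T c else w c) := by
      funext c
      by_cases hc : c = a
      · subst hc; simp [ind, haT]
      · rw [Function.update_of_ne hc]
        simp [hc, ind]
    have e3 : ∏ c ∈ S, fac w (insert a T) c = ∏ c ∈ S, fac w T c := by
      apply prod_congr rfl
      intro c hc
      have hca : c ≠ a := fun h => ha (h ▸ hc)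
      simp [fac, hca]
    rw [e1, e2, e3]
    simp only [ha, if_false, fac, haT, mem_insert_self, if_true]
    ring

/-- A box containing all cookies used by histories of length `< n`. -/
noncomputable def box (n : ℕ) : Finset (ℤ × ℕ) := Finset.Icc (-(n : ℤ)) n ×ˢ Finset.range (n + 1)

lemma abs_pos_le (h : List Bool) : |pos h| ≤ h.length := by
  induction h with
  | nil => simp [pos]
  | cons b h ih =>
    simp only [pos, List.length_cons]
    rw [abs_le] at ih ⊢
    push_cast
    split_ifs <;> constructor <;> omega

lemma prior_le_length (z : ℤ) (h : List Bool) : prior z h ≤ h.length := by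
  induction h with
  | nil => simp [prior]
  | cons b h ih =>
    simp only [prior, List.length_cons]
    split_ifs <;> omega

lemma cookie_mem_box {h : List Bool} {n : ℕ} (hn : h.length < n) : cookie h ∈ box n := by
  have h1 := abs_le.1 (abs_pos_le h)
  have h2 := prior_le_length (pos h) h
  simp only [box, cookie, mem_product, mem_Icc, mem_range]
  refine ⟨⟨by omega, by omega⟩, by omega⟩

/-- **Multi-affine expansion of quenched expectations.** -/
lemma EW_stack (w : ℤ × ℕ → ℝ) (n : ℕ) (Φ : List Bool → ℝ) :
    EW w n Φ = ∑ T ∈ (box n).powerset, (∏ c ∈ box n, fac w T c) * EW (ind T) n Φ := by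
  rw [EW_stack_aux w (box n)]
  apply sum_congr rfl
  intro T _
  congr 1
  apply Ex_congr
  · intro h hh
    simp [cookie_mem_box hh]
  · intro h _
    rfl

end Q171.ERW
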