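import Mathlib
import Pool.Agent.Q171.ERW.Walk

/-! # The outward tilted walk -/

open Finset

namespace Q171.ERW

/-- Drift attached to a cookie: `s` outward inside the window `|z| + i ≤ L`, zero outside. -/
noncomputable def dlt (s : ℝ) (L : ℕ) (c : ℤ × ℕ) : ℝ :=
  if c.1.natAbs + c.2 ≤ L then s * (c.1.sign : ℝ) else 0

/-- Tilted transition probability. -/
noncomputable def pt (s : ℝ) (L : ℕ) (h : List Bool) : ℝ := (1 + dlt s L (cookie h)) / 2

lemma abs_dlt_le {s : ℝ} (hs : 0 ≤ s) (L : ℕ) (c : ℤ × ℕ) : |dlt s L c| ≤ s := by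
  unfold dlt
  split_ifs
  · rcases lt_trichotomy c.1 0 with h | h | h
    · rw [Int.sign_eq_neg_one_of_neg h]; simp [abs_of_nonneg hs]
    · rw [h]; simpa using hs
    · rw [Int.sign_eq_one_of_pos h]; simp [abs_of_nonneg hs]
  · simpa using hs

lemma pt_mem {s : ℝ} (hs : 0 ≤ s) (hs1 : s ≤ 1) (L : ℕ) (h : List Bool) :
    0 ≤ pt s L h ∧ pt s L h ≤ 1 := by
  have := abs_le.1 (abs_dlt_le hs L (cookie h))
  unfold pt
  constructor <;> linarith

/-- Number of steps using cookies outside the window. -/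
noncomputable def UU (L : ℕ) : List Bool → ℝ
  | [] => 0
  | _ :: h => UU L h + (if (cookie h).1.natAbs + (cookie h).2 ≤ L then 0 else 1)

/-! ### The exponential potential -/

lemma exp_key {s : ℝ} (hs : 0 ≤ s) :
    (1 + s) / 2 * Real.exp (-s) + (1 - s) / 2 * Real.exp s ≤ 1 - s ^ 2 / 2 := by
  let f : ℝ → ℝ := fun s => 1 - s ^ 2 / 2 - ((1 + s) / 2 * Real.exp (-s)
    + (1 - s) / 2 * Real.exp s)
  have hd : ∀ x : ℝ, HasDerivAt f (x * (Real.exp x + Real.exp (-x) - 2) / 2) x := by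
    intro x
    have h1 : HasDerivAt (fun s : ℝ => Real.exp (-s)) (Real.exp (-x) * (-1)) x :=
      (Real.hasDerivAt_exp (-x)).comp x (hasDerivAt_neg x)
    have h2 : HasDerivAt (fun s : ℝ => (1 + s) / 2) (1 / 2) x :=
      ((hasDerivAt_id x).const_add 1).div_const 2
    have h3 : HasDerivAt (fun s : ℝ => (1 - s) / 2) (-1 / 2) x :=
      ((hasDerivAt_id x).const_sub 1).div_const 2
    have h4 : HasDerivAt (fun s : ℝ => 1 - s ^ 2 / 2) (-(2 * x / 2)) x := by
      have := (((hasDerivAt_id x).pow 2).div_const 2).const_sub 1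
      convert! this using 1
      simp
    have h5 := h4.sub ((h2.mul h1).add (h3.mul (Real.hasDerivAt_exp x)))
    convert! h5 using 1
    ring
  have hmono : MonotoneOn f (Set.Ici 0) := by
    apply monotoneOn_of_deriv_nonneg (convex_Ici 0)
    · exact fun x _ => (hd x).continuousAt.continuousWithinAt
    · exact fun x _ => (hd x).differentiableAt.differentiableWithinAt
    · intro x hx
      rw [(hd x).deriv]
      rw [interior_Ici] at hx
      have hx' : (0 : ℝ) < x := hx
      have h1 : 1 ≤ Real.cosh x := Real.one_le_cosh x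
      rw [Real.cosh_eq] at h1
      apply div_nonneg _ (by norm_num)
      apply mul_nonneg hx'.le
      linarith
  have h0 : f 0 ≤ f s := hmono (Set.mem_Ici.2 le_rfl) (Set.mem_Ici.2 hs) hs
  have h00 : f 0 = 0 := by simp [f]; norm_num
  rw [h00] at h0
  simp only [f] at h0
  linarith

/-- The potential. -/
noncomputable def psi (s : ℝ) (L : ℕ) (h : List Bool) : ℝ :=
  Real.exp (-(s * |(pos h : ℝ)|) + s ^ 2 / 2 * h.length - s ^ 2 * UU L h)

lemma psi_super {s : ℝ} (hs : 0 ≤ s) (hs1 : s ≤ 1) (L : ℕ) (h : List Bool) :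
    pt s L h * psi s L (true :: h) + (1 - pt s L h) * psi s L (false :: h) ≤ psi s L h := by
  set A : ℝ := -(s * |(pos h : ℝ)|) + s ^ 2 / 2 * h.length - s ^ 2 * UU L h with hA
  have hpsi : psi s L h = Real.exp A := rfl
  set u : ℝ := if (cookie h).1.natAbs + (cookie h).2 ≤ L then 0 else 1 with hu
  have hu0 : 0 ≤ u := by rw [hu]; split_ifs <;> norm_num
  have hgen : ∀ (b : Bool) (d : ℝ), |((pos (b :: h) : ℤ) : ℝ)| = |(pos h : ℝ)| + d →
      psi s L (b :: h) = Real.exp A * (Real.exp (s ^ 2 / 2 - s ^ 2 * u) * Real.exp (-(s * d))) := by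
    intro b d hd
    rw [← Real.exp_add, ← Real.exp_add]
    unfold psi
    rw [hd]
    congr 1
    simp only [UU, List.length_cons, hA, ← hu]
    push_cast
    ring
  have hEA := Real.exp_pos A
  rcases lt_trichotomy (pos h) 0 with hx | hx | hx
  · -- negative side
    have hxr : (pos h : ℝ) ≤ -1 := by exact_mod_cast (by omega : pos h ≤ -1)
    have ht : psi s L (true :: h) = _ := hgen true (-1) (by
      simp only [pos, if_true]; push_cast
      rw [abs_of_nonpos (by linarith), abs_of_nonpos (by linarith)]; ring)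
    have hf : psi s L (false :: h) = _ := hgen false 1 (by
      simp only [pos, Bool.false_eq_true, if_false]; push_cast
      rw [abs_of_nonpos (by linarith), abs_of_nonpos (by linarith)]; ring)
    rw [ht, hf, hpsi]
    by_cases hw : (cookie h).1.natAbs + (cookie h).2 ≤ L
    · have hu' : u = 0 := by rw [hu, if_pos hw]
      have hp : pt s L h = (1 - s) / 2 := by
        unfold pt dlt
        rw [if_pos hw]
        have : (cookie h).1.sign = -1 := Int.sign_eq_neg_one_of_neg hx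
        rw [this]; push_cast; ring
      rw [hp, hu']
      have hk := exp_key hs
      have h1 : Real.exp (s ^ 2 / 2) * (1 - s ^ 2 / 2) ≤ 1 := by
        have h2 := Real.one_sub_le_exp_neg (s ^ 2 / 2)
        calc Real.exp (s ^ 2 / 2) * (1 - s ^ 2 / 2)
            ≤ Real.exp (s ^ 2 / 2) * Real.exp (-(s ^ 2 / 2)) :=
              mul_le_mul_of_nonneg_left h2 (Real.exp_pos _).le
          _ = 1 := by rw [← Real.exp_add]; simp
      have h3 : Real.exp (s ^ 2 / 2) * ((1 + s) / 2 * Real.exp (-s) + (1 - s) / 2 * Real.exp s)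
          ≤ 1 := le_trans (mul_le_mul_of_nonneg_left hk (Real.exp_pos _).le) h1
      have h4 : s ^ 2 / 2 - s ^ 2 * 0 = s ^ 2 / 2 := by ring
      have h5 : -(s * -1) = s := by ring
      have h6 : -(s * 1) = -s := by ring
      rw [h4, h5, h6]
      nlinarith [mul_le_mul_of_nonneg_left h3 hEA.le]
    · have hu' : u = 1 := by rw [hu, if_neg hw]
      have hp : pt s L h = 1 / 2 := by
        unfold pt dlt
        rw [if_neg hw]; ring
      rw [hp, hu']
      have h1 := Real.cosh_le_exp_half_sq s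
      rw [Real.cosh_eq] at h1
      have h2 : Real.exp (-(s ^ 2 / 2)) * ((Real.exp s + Real.exp (-s)) / 2) ≤ 1 := by
        calc Real.exp (-(s ^ 2 / 2)) * ((Real.exp s + Real.exp (-s)) / 2)
            ≤ Real.exp (-(s ^ 2 / 2)) * Real.exp (s ^ 2 / 2) :=
              mul_le_mul_of_nonneg_left h1 (Real.exp_pos _).le
          _ = 1 := by rw [← Real.exp_add]; simp
      have h4 : s ^ 2 / 2 - s ^ 2 * 1 = -(s ^ 2 / 2) := by ring
      have h5 : -(s * -1) = s := by ring
      have h6 : -(s * 1) = -s := by ring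
      rw [h4, h5, h6]
      nlinarith [mul_le_mul_of_nonneg_left h2 hEA.le]
  · -- origin
    have ht : psi s L (true :: h) = _ := hgen true 1 (by simp [pos, hx])
    have hf : psi s L (false :: h) = _ := hgen false 1 (by simp [pos, hx])
    rw [ht, hf, hpsi]
    have h1 : Real.exp (s ^ 2 / 2 - s ^ 2 * u) * Real.exp (-(s * 1)) ≤ 1 := by
      rw [← Real.exp_add]
      apply Real.exp_le_one_iff.2
      nlinarith [mul_nonneg (sq_nonneg s) hu0]
    nlinarith [mul_le_mul_of_nonneg_left h1 hEA.le]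
  · have hxr : (1 : ℝ) ≤ (pos h : ℝ) := by exact_mod_cast (by omega : 1 ≤ pos h)
    have ht : psi s L (true :: h) = _ := hgen true 1 (by
      simp only [pos, if_true]; push_cast
      rw [abs_of_nonneg (by linarith), abs_of_nonneg (by linarith)])
    have hf : psi s L (false :: h) = _ := hgen false (-1) (by
      simp only [pos, Bool.false_eq_true, if_false]; push_cast
      rw [abs_of_nonneg (by linarith), abs_of_nonneg (by linarith)])
    rw [ht, hf, hpsi]
    by_cases hw : (cookie h).1.natAbs + (cookie h).2 ≤ L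
    · have hu' : u = 0 := by rw [hu, if_pos hw]
      have hp : pt s L h = (1 + s) / 2 := by
        unfold pt dlt
        rw [if_pos hw]
        have : (cookie h).1.sign = 1 := Int.sign_eq_one_of_pos hx
        rw [this]; push_cast; ring
      rw [hp, hu']
      have hk := exp_key hs
      have h1 : Real.exp (s ^ 2 / 2) * (1 - s ^ 2 / 2) ≤ 1 := by
        have h2 := Real.one_sub_le_exp_neg (s ^ 2 / 2)
        calc Real.exp (s ^ 2 / 2) * (1 - s ^ 2 / 2)
            ≤ Real.exp (s ^ 2 / 2) * Real.exp (-(s ^ 2 / 2)) :=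
              mul_le_mul_of_nonneg_left h2 (Real.exp_pos _).le
          _ = 1 := by rw [← Real.exp_add]; simp
      have h3 : Real.exp (s ^ 2 / 2) * ((1 + s) / 2 * Real.exp (-s) + (1 - s) / 2 * Real.exp s)
          ≤ 1 := le_trans (mul_le_mul_of_nonneg_left hk (Real.exp_pos _).le) h1
      have h4 : s ^ 2 / 2 - s ^ 2 * 0 = s ^ 2 / 2 := by ring
      have h5 : -(s * -1) = s := by ring
      have h6 : -(s * 1) = -s := by ring
      rw [h4, h5, h6]
      nlinarith [mul_le_mul_of_nonneg_left h3 hEA.le]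
    · have hu' : u = 1 := by rw [hu, if_neg hw]
      have hp : pt s L h = 1 / 2 := by
        unfold pt dlt
        rw [if_neg hw]; ring
      rw [hp, hu']
      have h1 := Real.cosh_le_exp_half_sq s
      rw [Real.cosh_eq] at h1
      have h2 : Real.exp (-(s ^ 2 / 2)) * ((Real.exp s + Real.exp (-s)) / 2) ≤ 1 := by
        calc Real.exp (-(s ^ 2 / 2)) * ((Real.exp s + Real.exp (-s)) / 2)
            ≤ Real.exp (-(s ^ 2 / 2)) * Real.exp (s ^ 2 / 2) :=
              mul_le_mul_of_nonneg_left h1 (Real.exp_pos _).le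
          _ = 1 := by rw [← Real.exp_add]; simp
      have h4 : s ^ 2 / 2 - s ^ 2 * 1 = -(s ^ 2 / 2) := by ring
      have h5 : -(s * -1) = s := by ring
      have h6 : -(s * 1) = -s := by ring
      rw [h4, h5, h6]
      nlinarith [mul_le_mul_of_nonneg_left h2 hEA.le]

lemma Ex_psi_le {s : ℝ} (hs : 0 ≤ s) (hs1 : s ≤ 1) (L n : ℕ) :
    Ex (pt s L) n (psi s L) ≤ 1 := by
  refine le_trans (Ex_super (pt_mem hs hs1 L) n (psi_super hs hs1 L)) ?_
  simp [psi, pos, UU]

/-! ### Change of measure to the simple random walk -/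

/-- Likelihood ratio. -/
noncomputable def ZZ (ε : List Bool → ℝ) : List Bool → ℝ
  | [] => 1
  | b :: h => ZZ ε h * (if b then 1 + ε h else 1 - ε h)

lemma Wt_tilt (ε : List Bool → ℝ) (h : List Bool) :
    Wt (fun h => (1 + ε h) / 2) h = Wt (fun _ => 1 / 2) h * ZZ ε h := by
  induction h with
  | nil => simp [Wt, ZZ]
  | cons b h ih =>
    simp only [Wt, ZZ, ih]
    cases b
    · simp only [Bool.false_eq_true, if_false]; ring
    · simp only [if_true]; ring

lemma Ex_tilt (ε : List Bool → ℝ) (n : ℕ) (Φ : List Bool → ℝ) :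
    Ex (fun h => (1 + ε h) / 2) n Φ = Ex (fun _ => 1 / 2) n (fun h => ZZ ε h * Φ h) := by
  rw [Ex_eq_sum, Ex_eq_sum]
  apply sum_congr rfl
  intro h _
  rw [Wt_tilt]
  ring

lemma half_mem : ∀ _ : List Bool, (0 : ℝ) ≤ (1 / 2 : ℝ) ∧ (1 / 2 : ℝ) ≤ 1 := by
  intro _; constructor <;> norm_num

lemma Ex_ZZ_sq_le {ε : List Bool → ℝ} {s : ℝ} (hε : ∀ h, |ε h| ≤ s) (n : ℕ) :
    Ex (fun _ => 1 / 2) n (fun h => ZZ ε h ^ 2) ≤ Real.exp (s ^ 2 * n) := by
  have h1 : Ex (fun _ => 1 / 2) n (fun h => ZZ ε h ^ 2 * Real.exp (-(s ^ 2 * h.length))) ≤ 1 := by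
    refine le_trans (Ex_super half_mem n ?_) ?_
    · intro h
      simp only [ZZ, if_true, Bool.false_eq_true, if_false, List.length_cons]
      have h2 : Real.exp (-(s ^ 2 * ((h.length + 1 : ℕ) : ℝ)))
          = Real.exp (-(s ^ 2 * h.length)) * Real.exp (-(s ^ 2)) := by
        rw [← Real.exp_add]; congr 1; push_cast; ring
      rw [h2]
      have h3 : (ε h) ^ 2 ≤ s ^ 2 := by
        rw [← sq_abs (ε h)]
        exact pow_le_pow_left₀ (abs_nonneg _) (hε h) 2
      have h4 : (1 + (ε h) ^ 2) * Real.exp (-(s ^ 2)) ≤ 1 := by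
        calc (1 + (ε h) ^ 2) * Real.exp (-(s ^ 2))
            ≤ Real.exp (s ^ 2) * Real.exp (-(s ^ 2)) := by
              apply mul_le_mul_of_nonneg_right _ (Real.exp_pos _).le
              have := Real.add_one_le_exp (s ^ 2)
              linarith
          _ = 1 := by rw [← Real.exp_add]; simp
      have h5 : 0 ≤ ZZ ε h ^ 2 * Real.exp (-(s ^ 2 * h.length)) := by positivity
      nlinarith [mul_le_mul_of_nonneg_left h4 h5]
    · simp [ZZ]
  have h2 : Ex (fun _ => 1 / 2) n (fun h => ZZ ε h ^ 2)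
      = Real.exp (s ^ 2 * n) * Ex (fun _ => 1 / 2) n
        (fun h => ZZ ε h ^ 2 * Real.exp (-(s ^ 2 * h.length))) := by
    rw [← Ex_smul]
    apply Ex_congr n (fun _ _ => rfl)
    intro h hh
    rw [hh]
    have : Real.exp (s ^ 2 * n) * Real.exp (-(s ^ 2 * n)) = 1 := by
      rw [← Real.exp_add]; simp
    calc ZZ ε h ^ 2 = ZZ ε h ^ 2 * (Real.exp (s ^ 2 * n) * Real.exp (-(s ^ 2 * n))) := by
          rw [this, mul_one]
      _ = _ := by ring
  rw [h2]
  nlinarith [Real.exp_pos (s ^ 2 * n)]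

/-! ### Occupation estimates for the simple random walk -/

/-- Sum of `|X_t| + #{u ≤ t : X_u = X_t}` split in two parts. -/
noncomputable def V1 : List Bool → ℝ
  | [] => 0
  | _ :: h => V1 h + |(pos h : ℝ)|

noncomputable def V2 : List Bool → ℝ
  | [] => 0
  | _ :: h => V2 h + ((prior (pos h) h : ℝ) + 1)

noncomputable def SS : List Bool → ℝ
  | [] => 0
  | _ :: h => SS h + (pos h : ℝ) ^ 2

lemma UU_mul_le (L : ℕ) (h : List Bool) : UU L h * L ≤ V1 h + V2 h := by
  induction h with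
  | nil => simp [UU, V1, V2]
  | cons b h ih =>
    simp only [UU, V1, V2]
    have h0 : (0 : ℝ) ≤ |(pos h : ℝ)| := abs_nonneg _
    split_ifs with hw
    · have : (0 : ℝ) ≤ (prior (pos h) h : ℝ) := Nat.cast_nonneg _
      linarith
    · have h1 : L ≤ (cookie h).1.natAbs + (cookie h).2 := by omega
      have h2 : (L : ℝ) ≤ ((cookie h).1.natAbs : ℝ) + ((cookie h).2 : ℝ) := by exact_mod_cast h1
      have h3 : ((cookie h).1.natAbs : ℝ) = |(pos h : ℝ)| := by
        simp [cookie, Nat.cast_natAbs]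
      have h4 : ((cookie h).2 : ℝ) = (prior (pos h) h : ℝ) + 1 := by simp [cookie]
      rw [h3, h4] at h2
      linarith

lemma UU_nonneg (L : ℕ) (h : List Bool) : 0 ≤ UU L h := by
  induction h with
  | nil => simp [UU]
  | cons b h ih =>
    simp only [UU]
    split_ifs <;> linarith

lemma amgm {m : ℝ} (hm : 0 < m) (x : ℝ) : |x| ≤ (x ^ 2 / m + m) / 2 := by
  have h1 : x ^ 2 / m + m - 2 * |x| = (|x| - m) ^ 2 / m := by
    field_simp
    rw [← sq_abs x]
    ring
  have h2 : 0 ≤ (|x| - m) ^ 2 / m := by positivity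
  linarith

lemma V1_le {m : ℝ} (hm : 0 < m) (h : List Bool) : V1 h ≤ (SS h / m + h.length * m) / 2 := by
  induction h with
  | nil => simp [V1, SS]
  | cons b h ih =>
    simp only [V1, SS, List.length_cons]
    have := amgm hm (pos h : ℝ)
    push_cast
    have e : (SS h + (pos h : ℝ) ^ 2) / m = SS h / m + (pos h : ℝ) ^ 2 / m := add_div _ _ _
    rw [e]
    linarith

lemma Ex_half_pos_sq (n : ℕ) :
    Ex (fun _ => 1 / 2) n (fun h => (pos h : ℝ) ^ 2) = n := by
  have h1 : Ex (fun _ => 1 / 2) n (fun h => (pos h : ℝ) ^ 2 - h.length) = 0 := by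
    rw [Ex_mart]
    · simp [pos]
    · intro h
      simp only [pos, if_true, Bool.false_eq_true, if_false, List.length_cons]
      push_cast
      ring
  have h2 : Ex (fun _ => 1 / 2) n (fun h => (pos h : ℝ) ^ 2 - h.length)
      = Ex (fun _ => 1 / 2) n (fun h => (pos h : ℝ) ^ 2) - n := by
    have : Ex (fun _ => (1 / 2 : ℝ)) n (fun h => (h.length : ℝ)) = n := by
      rw [Ex_congr (p' := fun _ => (1 / 2 : ℝ)) (Ψ := fun _ => (n : ℝ)) n (fun _ _ => rfl),
        Ex_const]
      intro h hh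
      rw [hh]
    rw [← this, ← Ex_sub]
  linarith

lemma Ex_half_SS (n : ℕ) : Ex (fun _ => 1 / 2) n SS ≤ (n : ℝ) ^ 2 / 2 := by
  induction n with
  | zero => simp [Ex, SS]
  | succ n ih =>
    have h1 : Ex (fun _ => 1 / 2) (n + 1) SS
        = Ex (fun _ => 1 / 2) n (fun h => SS h + (pos h : ℝ) ^ 2) := by
      simp only [Ex, SS]
      congr 1
      funext h
      ring
    rw [h1, Ex_add, Ex_half_pos_sq]
    have h2 : Ex (fun _ => 1 / 2) n (fun h => SS h) = Ex (fun _ => 1 / 2) n SS := rfl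
    rw [h2]
    push_cast
    nlinarith

/-- `∑_{u ≤ n} |y - X_u|`. -/
noncomputable def Hy (y : ℝ) : List Bool → ℝ
  | [] => |y|
  | b :: h => Hy y h + |y - (pos (b :: h) : ℝ)|

/-- `∑_{u ≤ n} (y - X_u) ^ 2`. -/
noncomputable def Hq (y : ℝ) : List Bool → ℝ
  | [] => y ^ 2
  | b :: h => Hq y h + (y - (pos (b :: h) : ℝ)) ^ 2

/-- `#{u ≤ n : X_u = z}`. -/
def cnt (z : ℤ) (h : List Bool) : ℕ := prior z h + (if pos h = z then 1 else 0)

lemma abs_step (z x : ℤ) : |((z + 1 : ℤ) : ℝ) - x| + |((z - 1 : ℤ) : ℝ) - x|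
    = 2 * |(z : ℝ) - x| + 2 * (if x = z then 1 else 0) := by
  rcases lt_trichotomy x z with h | h | h
  · have h1 : (x : ℝ) + 1 ≤ z := by exact_mod_cast h
    rw [if_neg h.ne]
    push_cast
    rw [abs_of_nonneg (by linarith), abs_of_nonneg (by linarith), abs_of_nonneg (by linarith)]
    ring
  · subst h
    push_cast
    simp
    norm_num
  · have h1 : (z : ℝ) + 1 ≤ x := by exact_mod_cast h
    rw [if_neg h.ne']
    push_cast
    rw [abs_of_nonpos (by linarith), abs_of_nonpos (by linarith), abs_of_nonpos (by linarith)]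
    ring

lemma Hy_step (z : ℤ) (h : List Bool) :
    Hy ((z + 1 : ℤ) : ℝ) h + Hy ((z - 1 : ℤ) : ℝ) h = 2 * Hy (z : ℝ) h + 2 * (cnt z h : ℝ) := by
  induction h with
  | nil =>
    have := abs_step z 0
    simp only [Int.cast_zero, sub_zero] at this
    simp only [Hy, cnt, prior, pos]
    rw [this]
    by_cases hz : (0 : ℤ) = z
    · simp [hz]
    · simp [hz]
  | cons b h ih =>
    have := abs_step z (pos (b :: h))
    simp only [Hy]
    have h2 : (cnt z (b :: h) : ℝ) = cnt z h + (if pos (b :: h) = z then 1 else 0) := by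
      simp only [cnt, prior]
      push_cast
      ring
    rw [h2]
    linarith

lemma Hq_step (z : ℤ) (h : List Bool) :
    Hq ((z + 1 : ℤ) : ℝ) h + Hq ((z - 1 : ℤ) : ℝ) h
      = 2 * Hq (z : ℝ) h + 2 * ((h.length : ℝ) + 1) := by
  induction h with
  | nil =>
    simp only [Hq, List.length_nil]
    push_cast
    ring
  | cons b h ih =>
    simp only [Hq, List.length_cons]
    push_cast at ih ⊢
    nlinarith [ih]

lemma Ex_half_V2 (n : ℕ) :
    Ex (fun _ => 1 / 2) n V2 = Ex (fun _ => 1 / 2) n (fun h => Hy (pos h : ℝ) h) := by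
  have h1 : Ex (fun _ => 1 / 2) n (fun h => Hy (pos h : ℝ) h - V2 h) = 0 := by
    rw [Ex_mart]
    · simp [Hy, V2, pos]
    · intro h
      have h2 := Hy_step (pos h) h
      have h3 : (cnt (pos h) h : ℝ) = prior (pos h) h + 1 := by simp [cnt]
      rw [h3] at h2
      have h4 : pos (true :: h) = pos h + 1 := by simp [pos]
      have h5 : pos (false :: h) = pos h - 1 := by simp [pos]; ring
      simp only [Hy, V2, h4, h5]
      simp only [sub_self, abs_zero, add_zero]
      linarith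
  rw [Ex_sub] at h1
  have h2 : Ex (fun _ => 1 / 2) n (fun h => V2 h) = Ex (fun _ => 1 / 2) n V2 := rfl
  linarith

lemma Ex_half_Hq (n : ℕ) :
    Ex (fun _ => 1 / 2) n (fun h => Hq (pos h : ℝ) h) = (n : ℝ) * (n + 1) / 2 := by
  have h1 : Ex (fun _ => 1 / 2) n
      (fun h => Hq (pos h : ℝ) h - (h.length : ℝ) * (h.length + 1) / 2) = 0 := by
    rw [Ex_mart]
    · simp [Hq, pos]
    · intro h
      have h2 := Hq_step (pos h) h
      have h4 : pos (true :: h) = pos h + 1 := by simp [pos]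
      have h5 : pos (false :: h) = pos h - 1 := by simp [pos]; ring
      simp only [Hq, h4, h5, List.length_cons]
      simp only [sub_self]
      push_cast at h2 ⊢
      linarith
  rw [Ex_sub] at h1
  have h2 : Ex (fun _ => (1 / 2 : ℝ)) n (fun h => (h.length : ℝ) * (h.length + 1) / 2)
      = (n : ℝ) * (n + 1) / 2 := by
    rw [Ex_congr (p' := fun _ => (1 / 2 : ℝ)) (Ψ := fun _ => (n : ℝ) * (n + 1) / 2) n
      (fun _ _ => rfl), Ex_const]
    intro h hh
    rw [hh]
  linarith

lemma Hy_le {m : ℝ} (hm : 0 < m) (y : ℝ) (h : List Bool) :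
    Hy y h ≤ (Hq y h / m + (h.length + 1) * m) / 2 := by
  induction h with
  | nil =>
    have := amgm hm y
    simp only [Hy, Hq, List.length_nil]
    push_cast
    linarith
  | cons b h ih =>
    simp only [Hy, Hq, List.length_cons]
    have := amgm hm (y - (pos (b :: h) : ℝ))
    push_cast
    have e : (Hq y h + (y - (pos (b :: h) : ℝ)) ^ 2) / m
        = Hq y h / m + (y - (pos (b :: h) : ℝ)) ^ 2 / m := add_div _ _ _
    rw [e]
    linarith

lemma Ex_half_V_le {m : ℕ} (hm : 1 ≤ m) :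
    Ex (fun _ => 1 / 2) (m ^ 2) (fun h => V1 h + V2 h) ≤ 3 * (m : ℝ) ^ 3 := by
  have hm0 : (0 : ℝ) < m := by exact_mod_cast hm
  have hm1 : (1 : ℝ) ≤ m := by exact_mod_cast hm
  rw [Ex_add]
  have e1 : Ex (fun _ => 1 / 2) (m ^ 2) (fun h => V2 h) = Ex (fun _ => 1 / 2) (m ^ 2) V2 := rfl
  rw [e1, Ex_half_V2]
  have h1 : Ex (fun _ => 1 / 2) (m ^ 2) (fun h => V1 h)
      ≤ ((m : ℝ) ^ 4 / 2 / m + m ^ 2 * m) / 2 := by
    have h2 := Ex_mono half_mem (m ^ 2) (Φ := fun h => V1 h)
      (Ψ := fun h => (1 / (2 * m)) * SS h + (m : ℝ) ^ 2 * m / 2) (by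
        intro h hh
        have := V1_le hm0 h
        rw [hh] at this
        push_cast at this
        refine le_trans this (le_of_eq ?_)
        field_simp)
    refine le_trans h2 ?_
    rw [Ex_add, Ex_smul, Ex_const]
    have h3 := Ex_half_SS (m ^ 2)
    have h4 : (1 / (2 * (m : ℝ))) * Ex (fun _ => 1 / 2) (m ^ 2) SS
        ≤ (1 / (2 * (m : ℝ))) * ((((m ^ 2 : ℕ) : ℝ)) ^ 2 / 2) :=
      mul_le_mul_of_nonneg_left h3 (by positivity)
    push_cast at h4
    have h5 : (1 / (2 * (m : ℝ))) * (((m : ℝ) ^ 2) ^ 2 / 2) + (m : ℝ) ^ 2 * m / 2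
        = ((m : ℝ) ^ 4 / 2 / m + m ^ 2 * m) / 2 := by
      field_simp
    linarith
  have h2 : Ex (fun _ => 1 / 2) (m ^ 2) (fun h => Hy (pos h : ℝ) h)
      ≤ ((m : ℝ) ^ 2 * (m ^ 2 + 1) / 2 / m + (m ^ 2 + 1) * m) / 2 := by
    have h2 := Ex_mono half_mem (m ^ 2) (Φ := fun h => Hy (pos h : ℝ) h)
      (Ψ := fun h => (1 / (2 * m)) * Hq (pos h : ℝ) h + ((m : ℝ) ^ 2 + 1) * m / 2) (by
        intro h hh
        have := Hy_le hm0 (pos h : ℝ) h
        rw [hh] at this
        push_cast at this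
        refine le_trans this (le_of_eq ?_)
        field_simp)
    refine le_trans h2 ?_
    rw [Ex_add, Ex_smul, Ex_const, Ex_half_Hq]
    push_cast
    apply le_of_eq
    field_simp
  have h3 : ((m : ℝ) ^ 4 / 2 / m + m ^ 2 * m) / 2 = 3 / 4 * (m : ℝ) ^ 3 := by
    field_simp
    ring
  have h4 : ((m : ℝ) ^ 2 * (m ^ 2 + 1) / 2 / m + (m ^ 2 + 1) * m) / 2
      = 3 / 4 * (m * (m ^ 2 + 1)) := by
    field_simp
    ring
  rw [h3] at h1
  rw [h4] at h2
  have h5 : (m : ℝ) ≤ m ^ 3 := by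
    nlinarith [sq_nonneg ((m : ℝ) - 1), mul_pos hm0 hm0]
  nlinarith

end Q171.ERW
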