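import Mathlib
import Pool.Agent.Q171.ERW.Tilt

/-! # Estimates for the outward tilted walk -/

open Finset

namespace Q171.ERW

lemma outside_bound {b ε : ℝ} (hb : 0 ≤ b) (hε : 0 < ε) :
    ∃ K : ℕ, 0 < K ∧ ∀ m : ℕ, 1 ≤ m → b ≤ m →
      Ex (pt (b / m) (K * m)) (m ^ 2) (fun h => if (m : ℝ) ^ 2 / 4 < UU (K * m) h then 1 else 0)
        ≤ ε := by
  set lam : ℝ := ε * Real.exp (-(b ^ 2)) with hlam
  have hlam0 : 0 < lam := by positivity
  obtain ⟨K, hK⟩ := exists_nat_gt (12 / (lam * ε))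
  have hK0' : (0 : ℝ) < K := lt_trans (by positivity) hK
  have hK0 : 0 < K := by exact_mod_cast hK0'
  refine ⟨K, hK0, ?_⟩
  intro m hm hbm
  have hm0 : (0 : ℝ) < m := by exact_mod_cast hm
  set s : ℝ := b / m with hs
  have hs0 : 0 ≤ s := by positivity
  set L : ℕ := K * m with hL
  have hLr : (L : ℝ) = K * m := by rw [hL]; push_cast; ring
  have e1 : (pt s L) = fun h => (1 + dlt s L (cookie h)) / 2 := rfl
  rw [e1, Ex_tilt]
  have hle : ∀ h : List Bool, h.length = m ^ 2 →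
      ZZ (fun h => dlt s L (cookie h)) h * (if (m : ℝ) ^ 2 / 4 < UU L h then 1 else 0)
      ≤ lam / 2 * (ZZ (fun h => dlt s L (cookie h)) h) ^ 2
        + (2 / (lam * m ^ 2 * L)) * (V1 h + V2 h) := by
    intro h _
    set z := ZZ (fun h => dlt s L (cookie h)) h
    have h1 := UU_mul_le L h
    have hLpos : (0 : ℝ) < L := by rw [hLr]; positivity
    have hU := UU_nonneg L h
    have hVnn : 0 ≤ V1 h + V2 h := le_trans (mul_nonneg hU hLpos.le) h1
    split_ifs with hc
    · have h2 : (m : ℝ) ^ 2 / 4 * L ≤ V1 h + V2 h :=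
        le_trans (mul_le_mul_of_nonneg_right hc.le hLpos.le) h1
      have h3 : 1 / (2 * lam) ≤ (2 / (lam * m ^ 2 * L)) * (V1 h + V2 h) := by
        calc 1 / (2 * lam) = (2 / (lam * m ^ 2 * L)) * ((m : ℝ) ^ 2 / 4 * L) := by
              field_simp
              norm_num
          _ ≤ _ := mul_le_mul_of_nonneg_left h2 (by positivity)
      have h4 : z * 1 ≤ lam / 2 * z ^ 2 + 1 / (2 * lam) := by
        have h5 : lam / 2 * z ^ 2 + 1 / (2 * lam) - z * 1 = (lam * z - 1) ^ 2 / (2 * lam) := by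
          field_simp
          ring
        have h6 : 0 ≤ (lam * z - 1) ^ 2 / (2 * lam) := by positivity
        linarith
      linarith
    · have : 0 ≤ (2 / (lam * m ^ 2 * L)) * (V1 h + V2 h) := by positivity
      have : 0 ≤ lam / 2 * z ^ 2 := by positivity
      linarith
  refine le_trans (Ex_mono half_mem _ hle) ?_
  rw [Ex_add, Ex_smul, Ex_smul]
  have h1 := Ex_ZZ_sq_le (ε := fun h => dlt s L (cookie h)) (s := s)
    (fun h => abs_dlt_le hs0 L (cookie h)) (m ^ 2)
  have h2 : s ^ 2 * ((m ^ 2 : ℕ) : ℝ) = b ^ 2 := by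
    rw [hs]; push_cast; field_simp
  rw [h2] at h1
  have h3 := Ex_half_V_le hm
  have h4 : lam / 2 * Ex (fun _ => 1 / 2) (m ^ 2) (fun h => ZZ (fun h => dlt s L (cookie h)) h ^ 2)
      ≤ ε / 2 := by
    refine le_trans (mul_le_mul_of_nonneg_left h1 (by positivity)) ?_
    have : lam * Real.exp (b ^ 2) = ε := by
      rw [hlam, mul_assoc, ← Real.exp_add]; simp
    nlinarith
  have h5 : (2 / (lam * m ^ 2 * L)) * Ex (fun _ => 1 / 2) (m ^ 2) (fun h => V1 h + V2 h)
      ≤ ε / 2 := by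
    refine le_trans (mul_le_mul_of_nonneg_left h3 (by positivity)) ?_
    rw [hLr]
    have e2 : 2 / (lam * (m : ℝ) ^ 2 * (K * m)) * (3 * (m : ℝ) ^ 3) = 6 / (lam * K) := by
      field_simp
      norm_num
    rw [e2, div_le_div_iff₀ (by positivity) (by norm_num)]
    rw [div_lt_iff₀ (by positivity)] at hK
    nlinarith
  linarith

theorem gap_bound {b ε : ℝ} (hb : 0 ≤ b) (hε : 0 < ε) :
    ∃ K : ℕ, 0 < K ∧ ∀ m : ℕ, 1 ≤ m → b ≤ m →
      Ex (pt (b / m) (K * m)) (m ^ 2) (fun h => if |(pos h : ℝ)| < m then 1 else 0)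
        ≤ Real.exp (b - b ^ 2 / 4) + ε := by
  obtain ⟨K, hK0, hK⟩ := outside_bound hb hε
  refine ⟨K, hK0, ?_⟩
  intro m hm hbm
  have hm0 : (0 : ℝ) < m := by exact_mod_cast hm
  have hs0 : 0 ≤ b / (m : ℝ) := by positivity
  have hs1 : b / (m : ℝ) ≤ 1 := by rw [div_le_one hm0]; exact hbm
  have h1 := hK m hm hbm
  have h2 := Ex_psi_le hs0 hs1 (K * m) (m ^ 2)
  have hle : ∀ h : List Bool, h.length = m ^ 2 →
      (if |(pos h : ℝ)| < m then (1 : ℝ) else 0)
        ≤ Real.exp (b - b ^ 2 / 4) * psi (b / m) (K * m) h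
          + (if (m : ℝ) ^ 2 / 4 < UU (K * m) h then 1 else 0) := by
    intro h hh
    have hpsi : 0 < psi (b / m) (K * m) h := Real.exp_pos _
    have hE : 0 < Real.exp (b - b ^ 2 / 4) := Real.exp_pos _
    by_cases hc : (m : ℝ) ^ 2 / 4 < UU (K * m) h
    · rw [if_pos hc]
      split_ifs
      · nlinarith [mul_pos hE hpsi]
      · nlinarith [mul_pos hE hpsi]
    · rw [if_neg hc]
      split_ifs with hx
      · rw [add_zero]
        unfold psi
        rw [← Real.exp_add]
        apply Real.one_le_exp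
        rw [hh]
        push_neg at hc
        have e1 : (b / (m : ℝ)) ^ 2 / 2 * ((m ^ 2 : ℕ) : ℝ) = b ^ 2 / 2 := by
          push_cast; field_simp
        have e2 : (b / (m : ℝ)) * |(pos h : ℝ)| ≤ b := by
          calc (b / (m : ℝ)) * |(pos h : ℝ)| ≤ (b / (m : ℝ)) * m :=
                mul_le_mul_of_nonneg_left hx.le hs0
            _ = b := by field_simp
        have e3 : (b / (m : ℝ)) ^ 2 * UU (K * m) h ≤ b ^ 2 / 4 := by
          calc (b / (m : ℝ)) ^ 2 * UU (K * m) h ≤ (b / (m : ℝ)) ^ 2 * ((m : ℝ) ^ 2 / 4) :=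
                mul_le_mul_of_nonneg_left hc (by positivity)
            _ = b ^ 2 / 4 := by field_simp
        rw [e1]
        linarith
      · have := mul_pos hE hpsi
        linarith
  refine le_trans (Ex_mono (pt_mem hs0 hs1 _) _ hle) ?_
  rw [Ex_add, Ex_smul]
  have h3 : Ex (pt (b / m) (K * m)) (m ^ 2) (fun h => psi (b / m) (K * m) h) ≤ 1 := h2
  have hE : 0 < Real.exp (b - b ^ 2 / 4) := Real.exp_pos _
  nlinarith

lemma Ex_pos_sq_le {b : ℝ} (hb : 0 ≤ b) {m : ℕ} (hm : 1 ≤ m) (hbm : b ≤ m) (L k : ℕ) :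
    Ex (pt (b / m) L) k (fun h => (pos h : ℝ) ^ 2) ≤ (1 + b) * k * (1 + b / m ^ 2) ^ k := by
  have hm0 : (0 : ℝ) < m := by exact_mod_cast hm
  have hs0 : 0 ≤ b / (m : ℝ) := by positivity
  have hs1 : b / (m : ℝ) ≤ 1 := by rw [div_le_one hm0]; exact hbm
  induction k with
  | zero => simp [Ex, pos]
  | succ k ih =>
    have h1 : Ex (pt (b / m) L) (k + 1) (fun h => (pos h : ℝ) ^ 2)
        ≤ Ex (pt (b / m) L) k (fun h => (1 + b / m ^ 2) * (pos h : ℝ) ^ 2 + (1 + b)) := by
      rw [Ex]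
      apply Ex_mono (pt_mem hs0 hs1 L)
      intro h _
      simp only [pos, if_true, Bool.false_eq_true, if_false]
      push_cast
      set x : ℝ := (pos h : ℝ)
      have h2 := abs_le.1 (abs_dlt_le hs0 L (cookie h))
      have h3 : pt (b / m) L h * (x + 1) ^ 2 + (1 - pt (b / m) L h) * (x + -1) ^ 2
          = x ^ 2 + 1 + 2 * (x * dlt (b / m) L (cookie h)) := by
        unfold pt; ring
      rw [h3]
      have h4 : x * dlt (b / m) L (cookie h) ≤ |x| * (b / m) := by
        calc x * dlt (b / m) L (cookie h) ≤ |x * dlt (b / m) L (cookie h)| := le_abs_self _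
          _ = |x| * |dlt (b / m) L (cookie h)| := abs_mul _ _
          _ ≤ |x| * (b / m) :=
            mul_le_mul_of_nonneg_left (abs_dlt_le hs0 L _) (abs_nonneg _)
      have h5 : 2 * (|x| * (b / m)) ≤ b / m ^ 2 * x ^ 2 + b := by
        have h6 : b / m ^ 2 * x ^ 2 + b - 2 * (|x| * (b / m)) = b * ((|x| - m) ^ 2 / m ^ 2) := by
          field_simp
          rw [← sq_abs x]
          ring
        have h7 : 0 ≤ b * ((|x| - m) ^ 2 / m ^ 2) := by positivity
        linarith
      linarith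
    refine le_trans h1 ?_
    rw [Ex_add, Ex_smul, Ex_const]
    have ha : 0 ≤ b / (m : ℝ) ^ 2 := by positivity
    have h2 : (1 : ℝ) ≤ (1 + b / (m : ℝ) ^ 2) ^ (k + 1) := one_le_pow₀ (by linarith)
    have h3 : (1 + b / (m : ℝ) ^ 2) * Ex (pt (b / m) L) k (fun h => (pos h : ℝ) ^ 2)
        ≤ (1 + b / (m : ℝ) ^ 2) * ((1 + b) * k * (1 + b / m ^ 2) ^ k) :=
      mul_le_mul_of_nonneg_left ih (by linarith)
    have h4 : (1 + b / (m : ℝ) ^ 2) * ((1 + b) * k * (1 + b / m ^ 2) ^ k)
        = (1 + b) * k * (1 + b / m ^ 2) ^ (k + 1) := by ring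
    push_cast
    rw [h4] at h3
    nlinarith [mul_le_mul_of_nonneg_left h2 (by linarith : (0 : ℝ) ≤ 1 + b)]

theorem outer_bound {b G : ℝ} (hb : 0 ≤ b) (hG : 0 < G) {m : ℕ} (hm : 1 ≤ m) (hbm : b ≤ m)
    (L : ℕ) :
    Ex (pt (b / m) L) (m ^ 2) (fun h => if G * m < |(pos h : ℝ)| then 1 else 0)
      ≤ (1 + b) * Real.exp b / G ^ 2 := by
  have hm0 : (0 : ℝ) < m := by exact_mod_cast hm
  have hs0 : 0 ≤ b / (m : ℝ) := by positivity
  have hs1 : b / (m : ℝ) ≤ 1 := by rw [div_le_one hm0]; exact hbm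
  have h1 := Ex_pos_sq_le hb hm hbm L (m ^ 2)
  have h2 : (1 + b / (m : ℝ) ^ 2) ^ (m ^ 2) ≤ Real.exp b := by
    have h3 : (1 + b / (m : ℝ) ^ 2) ≤ Real.exp (b / m ^ 2) := by
      have := Real.add_one_le_exp (b / (m : ℝ) ^ 2)
      linarith
    calc (1 + b / (m : ℝ) ^ 2) ^ (m ^ 2) ≤ (Real.exp (b / m ^ 2)) ^ (m ^ 2) :=
          pow_le_pow_left₀ (by positivity) h3 _
      _ = Real.exp b := by
          rw [← Real.exp_nat_mul]
          congr 1
          push_cast
          field_simp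
  have hle : ∀ h : List Bool, h.length = m ^ 2 →
      (if G * m < |(pos h : ℝ)| then (1 : ℝ) else 0)
        ≤ (1 / (G ^ 2 * m ^ 2)) * (pos h : ℝ) ^ 2 := by
    intro h _
    split_ifs with hx
    · have h3 : (G * m) ^ 2 ≤ (pos h : ℝ) ^ 2 := by
        rw [← sq_abs (pos h : ℝ)]
        exact pow_le_pow_left₀ (by positivity) hx.le 2
      rw [one_div, inv_mul_eq_div, le_div_iff₀ (by positivity)]
      nlinarith
    · positivity
  refine le_trans (Ex_mono (pt_mem hs0 hs1 _) _ hle) ?_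
  rw [Ex_smul]
  calc 1 / (G ^ 2 * (m : ℝ) ^ 2) * Ex (pt (b / m) L) (m ^ 2) (fun h => (pos h : ℝ) ^ 2)
      ≤ 1 / (G ^ 2 * (m : ℝ) ^ 2) * ((1 + b) * (m ^ 2 : ℕ) * Real.exp b) := by
        apply mul_le_mul_of_nonneg_left _ (by positivity)
        refine le_trans h1 ?_
        apply mul_le_mul_of_nonneg_left h2 (by positivity)
    _ = (1 + b) * Real.exp b / G ^ 2 := by
        push_cast
        field_simp

/-! ### Reflection -/

/-- Reflection of a history. -/
def refl (h : List Bool) : List Bool := h.map not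

lemma pos_refl (h : List Bool) : pos (refl h) = - pos h := by
  induction h with
  | nil => simp [refl, pos]
  | cons b h ih =>
    have : refl (b :: h) = (!b) :: refl h := rfl
    rw [this]
    simp only [pos, ih]
    cases b <;> simp <;> ring

lemma prior_refl (z : ℤ) (h : List Bool) : prior (-z) (refl h) = prior z h := by
  induction h with
  | nil => rfl
  | cons b h ih =>
    have : refl (b :: h) = (!b) :: refl h := rfl
    rw [this]
    simp only [prior, ih, pos_refl, neg_inj]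

lemma pt_refl (s : ℝ) (L : ℕ) (h : List Bool) : pt s L (refl h) = 1 - pt s L h := by
  unfold pt dlt cookie
  simp only [pos_refl, prior_refl, Int.natAbs_neg, Int.sign_neg]
  split_ifs
  · push_cast; ring
  · ring

lemma Ex_refl (s : ℝ) (L n : ℕ) (Φ : List Bool → ℝ) :
    Ex (pt s L) n Φ = Ex (pt s L) n (fun h => Φ (refl h)) := by
  induction n generalizing Φ with
  | zero => rfl
  | succ n ih =>
    simp only [Ex]
    rw [ih]
    congr 1
    funext h
    rw [pt_refl]
    have h1 : refl (true :: h) = false :: refl h := rfl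
    have h2 : refl (false :: h) = true :: refl h := rfl
    rw [h1, h2]
    ring

theorem Ex_symm (s : ℝ) (L n : ℕ) :
    Ex (pt s L) n (fun h => if 0 < pos h then 1 else 0)
      = Ex (pt s L) n (fun h => if pos h < 0 then 1 else 0) := by
  rw [Ex_refl]
  simp only [pos_refl, Left.neg_pos_iff]

end Q171.ERW
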