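import Mathlib
import Pool.Agent.Q171.ERW.Tilt2
import Pool.Agent.Q171.ERW.Noise

/-! # Random environments: tilted moments of quenched probabilities -/

open Finset MeasureTheory ProbabilityTheory

namespace Q171.ERW

variable {Ω : Type*} [MeasurableSpace Ω]

/-- The cookies `X (z, i)` (probability of the step `+1` at the `i`-th visit to `z`) are i.i.d.
with values in `[0, 1]`. -/
structure IIDCookies (P : Measure Ω) (X : ℤ × ℕ → Ω → ℝ) : Prop where
  meas : ∀ c, Measurable (X c)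
  mem : ∀ c a, 0 ≤ X c a ∧ X c a ≤ 1
  indep : iIndepFun X P
  ident : ∀ c, IdentDistrib (X c) (X (0, 1)) P P

variable {P : Measure Ω} [IsProbabilityMeasure P] {X : ℤ × ℕ → Ω → ℝ}

lemma integral_prod_cookies (hX : IIDCookies P X) (S : Finset (ℤ × ℕ)) (g : ℤ × ℕ → ℝ → ℝ)
    (hg : ∀ c, Continuous (g c)) :
    ∫ a, ∏ c ∈ S, g c (X c a) ∂P = ∏ c ∈ S, ∫ a, g c (X (0, 1) a) ∂P := by
  have h0 : iIndepFun (fun (c : S) => X (c : ℤ × ℕ)) P :=
    hX.indep.precomp Subtype.val_injective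
  have h1 := h0.integral_fun_prod_comp (f := fun (c : S) => g (c : ℤ × ℕ))
    (fun c => (hX.meas c).aemeasurable) (fun c => (hg c).aestronglyMeasurable)
  have h2 : ∀ a, ∏ i : S, g i (X i a) = ∏ c ∈ S, g c (X c a) := fun a =>
    Finset.prod_coe_sort S (fun c => g c (X c a))
  have h3 : ∏ i : S, ∫ a, g i (X i a) ∂P = ∏ c ∈ S, ∫ a, g c (X c a) ∂P :=
    Finset.prod_coe_sort S (fun c => ∫ a, g c (X c a) ∂P)
  simp only [h2, h3] at h1
  rw [h1]
  apply prod_congr rfl
  intro c _
  exact ((hX.ident c).comp (hg c).measurable).integral_eq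

lemma exists_bound_prod (hX : IIDCookies P X) (S : Finset (ℤ × ℕ)) (g : ℤ × ℕ → ℝ → ℝ)
    (hg : ∀ c, Continuous (g c)) : ∃ C : ℝ, ∀ a, |∏ c ∈ S, g c (X c a)| ≤ C := by
  have h1 : ∀ c, ∃ C : ℝ, ∀ x ∈ Set.Icc (0 : ℝ) 1, ‖g c x‖ ≤ C := fun c =>
    isCompact_Icc.exists_bound_of_continuousOn (hg c).continuousOn
  choose C hC using h1
  refine ⟨∏ c ∈ S, C c, fun a => ?_⟩
  rw [Finset.abs_prod]
  exact prod_le_prod (fun _ _ => abs_nonneg _) (fun c _ => hC c _ ⟨(hX.mem c a).1, (hX.mem c a).2⟩)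

lemma integrable_prod_cookies (hX : IIDCookies P X) (S : Finset (ℤ × ℕ)) (g : ℤ × ℕ → ℝ → ℝ)
    (hg : ∀ c, Continuous (g c)) : Integrable (fun a => ∏ c ∈ S, g c (X c a)) P := by
  obtain ⟨C, hC⟩ := exists_bound_prod hX S g hg
  apply Integrable.of_bound (C := C)
  · apply Measurable.aestronglyMeasurable
    apply Finset.measurable_fun_prod
    intro c _
    exact (hg c).measurable.comp (hX.meas c)
  · exact Filter.Eventually.of_forall hC

/-- Integral of a finite sum of products. -/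
lemma integral_sum_prod (hX : IIDCookies P X) {κ : Type*} (I : Finset κ) (S : Finset (ℤ × ℕ))
    (g : κ → ℤ × ℕ → ℝ → ℝ) (hg : ∀ k c, Continuous (g k c)) (f : κ → ℝ) :
    Integrable (fun a => ∑ k ∈ I, (∏ c ∈ S, g k c (X c a)) * f k) P ∧
    ∫ a, ∑ k ∈ I, (∏ c ∈ S, g k c (X c a)) * f k ∂P
      = ∑ k ∈ I, (∏ c ∈ S, ∫ a, g k c (X (0, 1) a) ∂P) * f k := by
  have hi : ∀ k ∈ I, Integrable (fun a => (∏ c ∈ S, g k c (X c a)) * f k) P := fun k _ =>
    (integrable_prod_cookies hX S (g k) (hg k)).mul_const _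
  refine ⟨integrable_finsetSum _ hi, ?_⟩
  rw [integral_finsetSum _ hi]
  apply sum_congr rfl
  intro k _
  rw [integral_mul_const, integral_prod_cookies hX S (g k) (hg k)]

/-- Continuous form of `fac`. -/
def facR (T : Finset (ℤ × ℕ)) (c : ℤ × ℕ) (x : ℝ) : ℝ := if c ∈ T then x else 1 - x

lemma facR_cont (T : Finset (ℤ × ℕ)) (c : ℤ × ℕ) : Continuous (facR T c) := by
  unfold facR
  split_ifs <;> fun_prop

lemma fac_eq (w : ℤ × ℕ → ℝ) (T : Finset (ℤ × ℕ)) (c : ℤ × ℕ) : fac w T c = facR T c (w c) := rfl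

/-- Density factor. -/
noncomputable def den (s : ℝ) (L : ℕ) (v : ℝ) (c : ℤ × ℕ) (x : ℝ) : ℝ :=
  1 + dlt s L c * ((2 * x - 1) / v)

lemma den_cont (s : ℝ) (L : ℕ) (v : ℝ) (c : ℤ × ℕ) : Continuous (den s L v c) := by
  unfold den
  fun_prop

/-- The tilting density. -/
noncomputable def DD (s : ℝ) (L : ℕ) (v : ℝ) (n : ℕ) (w : ℤ × ℕ → ℝ) : ℝ :=
  ∏ c ∈ box n, den s L v c (w c)

/-- Moments of one cookie. -/
structure Mom (P : Measure Ω) (X : ℤ × ℕ → Ω → ℝ) (v t : ℝ) : Prop where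
  v_pos : 0 < v
  v_le : v ≤ 1
  t_le : |t| ≤ v
  m1 : ∫ a, (2 * X (0, 1) a - 1) ∂P = 0
  m2 : ∫ a, (2 * X (0, 1) a - 1) ^ 2 ∂P = v
  m3 : ∫ a, (2 * X (0, 1) a - 1) ^ 3 ∂P = t

lemma integrable_pow (hX : IIDCookies P X) (k : ℕ) :
    Integrable (fun a => (2 * X (0, 1) a - 1) ^ k) P := by
  apply Integrable.of_bound (C := 1)
  · exact (((hX.meas (0, 1)).const_mul 2).sub_const 1 |>.pow_const k).aestronglyMeasurable
  · refine Filter.Eventually.of_forall (fun a => ?_)
    rw [norm_pow]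
    apply pow_le_one₀ (norm_nonneg _)
    rw [Real.norm_eq_abs, abs_le]
    have := hX.mem (0, 1) a
    constructor <;> linarith

/-- Polynomial expectations. -/
lemma integral_poly (hX : IIDCookies P X) {v t : ℝ} (hM : Mom P X v t) (a0 a1 a2 a3 : ℝ)
    (g : ℝ → ℝ) (hg : ∀ x, g x = a0 + a1 * (2 * x - 1) + a2 * (2 * x - 1) ^ 2
      + a3 * (2 * x - 1) ^ 3) :
    ∫ a, g (X (0, 1) a) ∂P = a0 + a2 * v + a3 * t := by
  have h1 := integrable_pow hX 1
  simp only [pow_one] at h1
  have h2 := integrable_pow hX 2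
  have h3 := integrable_pow hX 3
  simp only [hg]
  have i1 : Integrable (fun a => a0 + a1 * (2 * X (0, 1) a - 1)) P :=
    (integrable_const a0).add (h1.const_mul a1)
  have i2 : Integrable (fun a => a0 + a1 * (2 * X (0, 1) a - 1)
      + a2 * (2 * X (0, 1) a - 1) ^ 2) P := i1.add (h2.const_mul a2)
  rw [integral_add i2 (h3.const_mul a3), integral_add i1 (h2.const_mul a2),
    integral_add (integrable_const a0) (h1.const_mul a1), integral_const_mul, integral_const_mul,
    integral_const_mul, hM.m1, hM.m2, hM.m3]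
  simp

/-- Tilted mean of a cookie. -/
noncomputable def mt (s : ℝ) (L : ℕ) (c : ℤ × ℕ) : ℝ := (1 + dlt s L c) / 2

/-- Tilted variance of a cookie. -/
noncomputable def vt (s : ℝ) (L : ℕ) (v t : ℝ) (c : ℤ × ℕ) : ℝ :=
  (v + dlt s L c * t / v - dlt s L c ^ 2) / 4

lemma integral_den_fac (hX : IIDCookies P X) {v t : ℝ} (hM : Mom P X v t) (s : ℝ) (L : ℕ)
    (T : Finset (ℤ × ℕ)) (c : ℤ × ℕ) :
    ∫ a, den s L v c (X (0, 1) a) * facR T c (X (0, 1) a) ∂P = mas (mt s L) T c := by
  have hv := hM.v_pos.ne'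
  by_cases hc : c ∈ T
  · rw [integral_poly hX hM (1 / 2) (1 / 2 + dlt s L c / v / 2) (dlt s L c / v / 2) 0
      (fun x => den s L v c x * facR T c x)]
    · simp only [mas, mt, hc, if_true]
      field_simp
      ring
    · intro x
      simp only [den, facR, hc, if_true]
      ring
  · rw [integral_poly hX hM (1 / 2) (-1 / 2 + dlt s L c / v / 2) (-(dlt s L c / v / 2)) 0
      (fun x => den s L v c x * facR T c x)]
    · simp only [mas, mt, hc, if_false]
      field_simp
      ring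
    · intro x
      simp only [den, facR, hc, if_false]
      ring

lemma integral_den_fac_fac (hX : IIDCookies P X) {v t : ℝ} (hM : Mom P X v t) (s : ℝ) (L : ℕ)
    (T T' : Finset (ℤ × ℕ)) (c : ℤ × ℕ) :
    ∫ a, den s L v c (X (0, 1) a) * facR T c (X (0, 1) a) * facR T' c (X (0, 1) a) ∂P
      = ker (mt s L) (vt s L v t) T T' c := by
  have hv := hM.v_pos.ne'
  set d := dlt s L c / v with hd
  by_cases hc : c ∈ T <;> by_cases hc' : c ∈ T'
  · rw [integral_poly hX hM (1 / 4) (1 / 2 + d / 4) (1 / 4 + d / 2) (d / 4)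
      (fun x => den s L v c x * facR T c x * facR T' c x)]
    · simp only [ker, mt, vt, hc, hc', if_true]
      rw [hd]
      field_simp
      ring
    · intro x
      simp only [den, facR, hc, hc', if_true, hd]
      ring
  · rw [integral_poly hX hM (1 / 4) (d / 4) (-1 / 4) (-d / 4)
      (fun x => den s L v c x * facR T c x * facR T' c x)]
    · simp only [ker, mt, vt, hc, hc', if_true, if_false, true_iff]
      rw [hd]
      field_simp
      ring
    · intro x
      simp only [den, facR, hc, hc', if_true, if_false, hd]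
      ring
  · rw [integral_poly hX hM (1 / 4) (d / 4) (-1 / 4) (-d / 4)
      (fun x => den s L v c x * facR T c x * facR T' c x)]
    · simp only [ker, mt, vt, hc, hc', if_true, if_false, false_iff, not_true]
      rw [hd]
      field_simp
      ring
    · intro x
      simp only [den, facR, hc, hc', if_true, if_false, hd]
      ring
  · rw [integral_poly hX hM (1 / 4) (-1 / 2 + d / 4) (1 / 4 - d / 2) (d / 4)
      (fun x => den s L v c x * facR T c x * facR T' c x)]
    · simp only [ker, mt, vt, hc, hc', if_true, if_false]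
      rw [hd]
      field_simp
      ring
    · intro x
      simp only [den, facR, hc, hc', if_false, hd]
      ring

/-- Tilted mean of a quenched expectation. -/
theorem integral_DD_EW (hX : IIDCookies P X) {v t : ℝ} (hM : Mom P X v t) (s : ℝ) (L n : ℕ)
    (Φ : List Bool → ℝ) :
    Integrable (fun a => DD s L v n (fun c => X c a) * EW (fun c => X c a) n Φ) P ∧
    ∫ a, DD s L v n (fun c => X c a) * EW (fun c => X c a) n Φ ∂P = Ex (pt s L) n Φ := by
  have h1 := integral_sum_prod hX (box n).powerset (box n)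
    (fun T c x => den s L v c x * facR T c x)
    (fun T c => (den_cont s L v c).mul (facR_cont T c)) (fun T => EW (ind T) n Φ)
  have h2 : (fun a => DD s L v n (fun c => X c a) * EW (fun c => X c a) n Φ)
      = fun a => ∑ T ∈ (box n).powerset, (∏ c ∈ box n, (den s L v c (X c a) * facR T c (X c a)))
        * EW (ind T) n Φ := by
    funext a
    rw [EW_stack (fun c => X c a) n Φ, mul_sum]
    apply sum_congr rfl
    intro T _
    rw [prod_mul_distrib]
    unfold DD
    simp only [fac_eq]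
    ring
  rw [h2]
  refine ⟨h1.1, h1.2.trans ?_⟩
  have h3 : Ex (pt s L) n Φ = EW (mt s L) n Φ := rfl
  rw [h3, EW_stack (mt s L)]
  apply sum_congr rfl
  intro T _
  simp only [integral_den_fac hX hM]
  rfl

/-- Tilted second moment of a quenched expectation. -/
theorem integral_DD_EW_sq (hX : IIDCookies P X) {v t : ℝ} (hM : Mom P X v t) (s : ℝ) (L n : ℕ)
    (Φ : List Bool → ℝ) :
    Integrable (fun a => DD s L v n (fun c => X c a) * (EW (fun c => X c a) n Φ) ^ 2) P ∧
    ∫ a, DD s L v n (fun c => X c a) * (EW (fun c => X c a) n Φ) ^ 2 ∂P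
      = QQ (mt s L) (vt s L v t) (box n) (fun T => EW (ind T) n Φ) := by
  have h1 := integral_sum_prod hX ((box n).powerset ×ˢ (box n).powerset) (box n)
    (fun T c x => den s L v c x * facR T.1 c x * facR T.2 c x)
    (fun T c => ((den_cont s L v c).mul (facR_cont T.1 c)).mul (facR_cont T.2 c))
    (fun T => EW (ind T.1) n Φ * EW (ind T.2) n Φ)
  have h2 : (fun a => DD s L v n (fun c => X c a) * (EW (fun c => X c a) n Φ) ^ 2)
      = fun a => ∑ T ∈ (box n).powerset ×ˢ (box n).powerset,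
        (∏ c ∈ box n, (den s L v c (X c a) * facR T.1 c (X c a) * facR T.2 c (X c a)))
        * (EW (ind T.1) n Φ * EW (ind T.2) n Φ) := by
    funext a
    rw [EW_stack (fun c => X c a) n Φ, sq, sum_mul_sum, ← sum_product', mul_sum]
    apply sum_congr rfl
    intro T _
    rw [prod_mul_distrib, prod_mul_distrib]
    unfold DD
    simp only [fac_eq]
    ring
  rw [h2]
  refine ⟨h1.1, h1.2.trans ?_⟩
  unfold QQ
  rw [← sum_product']
  apply sum_congr rfl
  intro T _
  simp only [integral_den_fac_fac hX hM]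

theorem integral_DD_sq (hX : IIDCookies P X) {v t : ℝ} (hM : Mom P X v t) (s : ℝ) (L n : ℕ) :
    Integrable (fun a => (DD s L v n (fun c => X c a)) ^ 2) P ∧
    ∫ a, (DD s L v n (fun c => X c a)) ^ 2 ∂P = ∏ c ∈ box n, (1 + dlt s L c ^ 2 / v) := by
  have hv := hM.v_pos.ne'
  have h1 : (fun a => (DD s L v n (fun c => X c a)) ^ 2)
      = fun a => ∏ c ∈ box n, (den s L v c (X c a)) ^ 2 := by
    funext a
    unfold DD
    rw [prod_pow]
  rw [h1]
  refine ⟨integrable_prod_cookies hX (box n) (fun c x => den s L v c x ^ 2)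
    (fun c => (den_cont s L v c).pow 2), ?_⟩
  rw [integral_prod_cookies hX (box n) (fun c x => den s L v c x ^ 2)
    (fun c => (den_cont s L v c).pow 2)]
  apply prod_congr rfl
  intro c _
  rw [integral_poly hX hM 1 (2 * (dlt s L c / v)) ((dlt s L c / v) ^ 2) 0
    (fun x => den s L v c x ^ 2)]
  · field_simp
    ring
  · intro x
    simp only [den]
    ring

lemma DD_nonneg (hX : IIDCookies P X) {v : ℝ} (hv : 0 < v) {s : ℝ} (hs : 0 ≤ s) (hsv : s ≤ v)
    (L n : ℕ) (a : Ω) : 0 ≤ DD s L v n (fun c => X c a) := by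
  apply prod_nonneg
  intro c _
  unfold den
  have h1 := abs_dlt_le hs L c
  have h2 : |2 * X c a - 1| ≤ 1 := by
    rw [abs_le]
    have := hX.mem c a
    constructor <;> linarith
  have h3 : |dlt s L c * ((2 * X c a - 1) / v)| ≤ 1 := by
    rw [abs_mul, abs_div, abs_of_pos hv]
    calc |dlt s L c| * (|2 * X c a - 1| / v) ≤ v * (1 / v) := by
          apply mul_le_mul (h1.trans hsv) (div_le_div_of_nonneg_right h2 hv.le) (by positivity)
            hv.le
      _ = 1 := by field_simp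
  have := (abs_le.1 h3).1
  linarith

lemma ind_mem (T : Finset (ℤ × ℕ)) (h : List Bool) :
    0 ≤ ind T (cookie h) ∧ ind T (cookie h) ≤ 1 := by
  unfold ind
  split_ifs <;> norm_num

/-- Key lower bound: quenched indecision under the tilted law. -/
theorem QQ_bound {v t : ℝ} (hM : Mom P X v t) {s : ℝ} (hs : 0 ≤ s)
    (hs1 : s ≤ v / 2) (hs2 : s ≤ (1 - v) / 2) (L n : ℕ) {Φ : List Bool → ℝ}
    (hΦ : ∀ h, 0 ≤ Φ h ∧ Φ h ≤ 1) :
    QQ (mt s L) (vt s L v t) (box n) (fun T => EW (ind T) n Φ)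
      ≤ (1 - v) / 2 * (Ex (pt s L) n Φ) ^ 2 + (1 + v) / 2 * Ex (pt s L) n Φ := by
  have hv0 := hM.v_pos
  have hv1 := hM.v_le
  have hd : ∀ c, |dlt s L c| ≤ s := fun c => abs_dlt_le hs L c
  have hm : ∀ c ∈ box n, 0 ≤ mt s L c ∧ mt s L c ≤ 1 := by
    intro c _
    have := abs_le.1 (hd c)
    unfold mt
    constructor <;> linarith
  have hv : ∀ c ∈ box n, 0 ≤ vt s L v t c
      ∧ vt s L v t c ≤ (1 + v) / 2 * (mt s L c * (1 - mt s L c)) := by
    intro c _
    have h1 := hd c
    have h2 : |dlt s L c * t / v| ≤ |dlt s L c| := by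
      rw [abs_div, abs_mul, abs_of_pos hv0, div_le_iff₀ hv0]
      exact mul_le_mul_of_nonneg_left hM.t_le (abs_nonneg _)
    have h3 := abs_le.1 h2
    have h4 : dlt s L c ^ 2 ≤ s ^ 2 := by
      rw [← sq_abs (dlt s L c)]
      exact pow_le_pow_left₀ (abs_nonneg _) h1 2
    have h5 : s ^ 2 ≤ v / 2 := by nlinarith
    have h6 : 0 ≤ dlt s L c ^ 2 := sq_nonneg _
    unfold vt mt
    constructor
    · linarith
    · nlinarith
  have h1 := QQ_le (r := (1 + v) / 2) ⟨by linarith, by linarith⟩ hm hv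
    (fun T => EW (ind T) n Φ)
  have h2 : MM (mt s L) (box n) (fun T => EW (ind T) n Φ) = Ex (pt s L) n Φ := by
    have h3 : Ex (pt s L) n Φ = EW (mt s L) n Φ := rfl
    rw [h3, EW_stack (mt s L)]
    rfl
  have h3 : MM (mt s L) (box n) (fun T => (EW (ind T) n Φ) ^ 2)
      ≤ MM (mt s L) (box n) (fun T => EW (ind T) n Φ) := by
    apply MM_mono hm
    intro T
    have h4 : 0 ≤ EW (ind T) n Φ := Ex_nonneg (ind_mem T) n (fun h => (hΦ h).1)
    have h5 : EW (ind T) n Φ ≤ 1 := Ex_le_one (ind_mem T) n (fun h => (hΦ h).2)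
    nlinarith
  rw [h2] at h1 h3
  have h4 : (0 : ℝ) ≤ (1 + v) / 2 := by linarith
  nlinarith [mul_le_mul_of_nonneg_left h3 h4]

end Q171.ERW
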