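import Mathlib
import Pool.Agent.Q171.ERW.Env

/-! # A uniformly positive probability of a bimodal quenched law -/

open Finset MeasureTheory ProbabilityTheory

namespace Q171.ERW

variable {Ω : Type*} [MeasurableSpace Ω] {P : Measure Ω} [IsProbabilityMeasure P]
  {X : ℤ × ℕ → Ω → ℝ}

/-- Indicators. -/
noncomputable def iR (m : ℕ) (h : List Bool) : ℝ := if (m : ℝ) ≤ pos h then 1 else 0
noncomputable def iL (m : ℕ) (h : List Bool) : ℝ := if (pos h : ℝ) ≤ -m then 1 else 0
noncomputable def iM (m : ℕ) (h : List Bool) : ℝ := if |(pos h : ℝ)| < m then 1 else 0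
noncomputable def iO (G : ℝ) (m : ℕ) (h : List Bool) : ℝ :=
  if G * m < |(pos h : ℝ)| then 1 else 0
noncomputable def iP (h : List Bool) : ℝ := if 0 < pos h then 1 else 0
noncomputable def iMp (m : ℕ) (h : List Bool) : ℝ := if 0 < pos h ∧ (pos h : ℝ) < m then 1 else 0
noncomputable def iMn (m : ℕ) (h : List Bool) : ℝ := if pos h ≤ 0 ∧ -(m : ℝ) < pos h then 1 else 0

/-- The bimodality functional. -/
noncomputable def VV (A B G : ℝ) (m : ℕ) (w : ℤ × ℕ → ℝ) : ℝ :=
  EW w (m ^ 2) (iR m) * EW w (m ^ 2) (iL m) - A * EW w (m ^ 2) (iM m) - B * EW w (m ^ 2) (iO G m)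

lemma EW_measurable (hX : IIDCookies P X) (n : ℕ) (Φ : List Bool → ℝ) :
    Measurable (fun a => EW (fun c => X c a) n Φ) := by
  have h0 : (fun a => EW (fun c => X c a) n Φ) = fun a => ∑ T ∈ (box n).powerset,
      (∏ c ∈ box n, fac (fun c => X c a) T c) * EW (ind T) n Φ :=
    funext fun a => EW_stack _ _ _
  rw [h0]
  apply Finset.measurable_fun_sum
  intro T _
  apply Measurable.mul_const
  apply Finset.measurable_fun_prod
  intro c _
  unfold fac
  split_ifs
  · exact hX.meas c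
  · exact (hX.meas c).const_sub 1

lemma DD_measurable (hX : IIDCookies P X) (s : ℝ) (L : ℕ) (v : ℝ) (n : ℕ) :
    Measurable (fun a => DD s L v n (fun c => X c a)) := by
  unfold DD
  apply Finset.measurable_fun_prod
  intro c _
  exact (den_cont s L v c).measurable.comp (hX.meas c)

lemma VV_measurable (hX : IIDCookies P X) (A B G : ℝ) (m : ℕ) :
    Measurable (fun a => VV A B G m (fun c => X c a)) := by
  unfold VV
  exact (((EW_measurable hX _ _).mul (EW_measurable hX _ _)).sub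
    ((EW_measurable hX _ _).const_mul A)).sub ((EW_measurable hX _ _).const_mul B)

/-- Pointwise comparison. -/
lemma VV_lower {w : ℤ × ℕ → ℝ} (hw : ∀ c, 0 ≤ w c ∧ w c ≤ 1) {m : ℕ} (hm : 1 ≤ m) (A B G : ℝ) :
    EW w (m ^ 2) iP - (EW w (m ^ 2) iP) ^ 2 - (1 + A) * EW w (m ^ 2) (iM m)
      - B * EW w (m ^ 2) (iO G m) ≤ VV A B G m w := by
  have hw' : ∀ h, 0 ≤ (fun h => w (cookie h)) h ∧ (fun h => w (cookie h)) h ≤ 1 :=
    fun h => hw (cookie h)
  have hm1 : (1 : ℝ) ≤ m := by exact_mod_cast hm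
  set n := m ^ 2
  have hF : EW w n iP = EW w n (iR m) + EW w n (iMp m) := by
    unfold EW
    rw [← Ex_add]
    apply Ex_congr n (fun _ _ => rfl)
    intro h _
    unfold iP iR iMp
    by_cases h1 : 0 < pos h
    · by_cases h2 : (m : ℝ) ≤ pos h
      · simp [h1, h2, not_lt.2 h2]
      · simp [h1, h2, not_le.1 h2]
    · have h2 : ¬ (m : ℝ) ≤ pos h := by
        intro h3
        apply h1
        have : (0 : ℝ) < pos h := by linarith
        exact_mod_cast this
      simp [h1, h2]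
  have hF' : 1 - EW w n iP = EW w n (iL m) + EW w n (iMn m) := by
    have h1 : (1 : ℝ) = Ex (fun h => w (cookie h)) n (fun _ => 1) := (Ex_const _ n 1).symm
    unfold EW
    rw [h1, ← Ex_sub, ← Ex_add]
    apply Ex_congr n (fun _ _ => rfl)
    intro h _
    unfold iP iL iMn
    by_cases h1 : 0 < pos h
    · have h2 : ¬ (pos h : ℝ) ≤ -m := by
        intro h3
        have : (0 : ℝ) < pos h := by exact_mod_cast h1
        linarith
      simp [h1, h2]
    · by_cases h2 : (pos h : ℝ) ≤ -m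
      · simp [h1, h2, not_lt.2 h2]
      · simp [h1, h2, not_le.1 h2, not_lt.1 h1]
  have hM : EW w n (iM m) = EW w n (iMp m) + EW w n (iMn m) := by
    unfold EW
    rw [← Ex_add]
    apply Ex_congr n (fun _ _ => rfl)
    intro h _
    unfold iM iMp iMn
    by_cases h1 : 0 < pos h
    · have h0 : (0 : ℝ) < pos h := by exact_mod_cast h1
      simp [h1, not_le.2 h1, abs_of_pos h0]
    · have h0 : (pos h : ℝ) ≤ 0 := by exact_mod_cast not_lt.1 h1
      simp only [h1, false_and, if_false, not_lt.1 h1, true_and, abs_of_nonpos h0, zero_add]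
      by_cases h2 : -(m : ℝ) < pos h
      · rw [if_pos h2, if_pos (by linarith)]
      · rw [if_neg h2, if_neg (by linarith)]
  have r0 : ∀ Φ : List Bool → ℝ, (∀ h, 0 ≤ Φ h ∧ Φ h ≤ 1) →
      0 ≤ EW w n Φ ∧ EW w n Φ ≤ 1 := fun Φ hΦ =>
    ⟨Ex_nonneg hw' n (fun h => (hΦ h).1), Ex_le_one hw' n (fun h => (hΦ h).2)⟩
  have hR := r0 (iR m) (fun h => by unfold iR; split_ifs <;> norm_num)
  have hL := r0 (iL m) (fun h => by unfold iL; split_ifs <;> norm_num)
  have hMp := r0 (iMp m) (fun h => by unfold iMp; split_ifs <;> norm_num)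
  have hMn := r0 (iMn m) (fun h => by unfold iMn; split_ifs <;> norm_num)
  have hP := r0 iP (fun h => by unfold iP; split_ifs <;> norm_num)
  unfold VV
  have e1 : EW w n iP - (EW w n iP) ^ 2 = EW w n iP * (1 - EW w n iP) := by ring
  rw [e1]
  have e2 : EW w n iP * (1 - EW w n iP)
      ≤ EW w n (iR m) * EW w n (iL m) + EW w n (iM m) := by
    rw [hF', hM]
    nth_rewrite 1 [hF]
    nlinarith [mul_le_mul_of_nonneg_left hR.2 hMn.1,
      mul_le_mul_of_nonneg_left (show EW w n (iL m) + EW w n (iMn m) ≤ 1 by linarith [hP.1]) hMp.1]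
  linarith

lemma VV_le_one {w : ℤ × ℕ → ℝ} (hw : ∀ c, 0 ≤ w c ∧ w c ≤ 1) {m : ℕ} {A B : ℝ} (hA : 0 ≤ A)
    (hB : 0 ≤ B) (G : ℝ) : VV A B G m w ≤ 1 := by
  have hw' : ∀ h, 0 ≤ (fun h => w (cookie h)) h ∧ (fun h => w (cookie h)) h ≤ 1 :=
    fun h => hw (cookie h)
  have r0 : ∀ Φ : List Bool → ℝ, (∀ h, 0 ≤ Φ h ∧ Φ h ≤ 1) →
      0 ≤ EW w (m ^ 2) Φ ∧ EW w (m ^ 2) Φ ≤ 1 := fun Φ hΦ =>
    ⟨Ex_nonneg hw' _ (fun h => (hΦ h).1), Ex_le_one hw' _ (fun h => (hΦ h).2)⟩
  have hR := r0 (iR m) (fun h => by unfold iR; split_ifs <;> norm_num)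
  have hL := r0 (iL m) (fun h => by unfold iL; split_ifs <;> norm_num)
  have hM := r0 (iM m) (fun h => by unfold iM; split_ifs <;> norm_num)
  have hO := r0 (iO G m) (fun h => by unfold iO; split_ifs <;> norm_num)
  unfold VV
  nlinarith [mul_nonneg hA hM.1, mul_nonneg hB hO.1]

/-- Bound on the number of window cookies. -/
lemma sum_dlt_sq {s : ℝ} (hs : 0 ≤ s) {L : ℕ} (hL : 1 ≤ L) (n : ℕ) :
    ∑ c ∈ box n, dlt s L c ^ 2 ≤ 6 * (L : ℝ) ^ 2 * s ^ 2 := by
  have h1 : ∀ c ∈ box n, dlt s L c ^ 2 ≤ if c.1.natAbs + c.2 ≤ L then s ^ 2 else 0 := by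
    intro c _
    split_ifs with hc
    · rw [← sq_abs (dlt s L c)]
      exact pow_le_pow_left₀ (abs_nonneg _) (abs_dlt_le hs L c) 2
    · unfold dlt
      rw [if_neg hc]
      simp
  refine le_trans (sum_le_sum h1) ?_
  rw [← sum_filter, sum_const, nsmul_eq_mul]
  apply mul_le_mul_of_nonneg_right _ (sq_nonneg s)
  have h2 : ((box n).filter (fun c => c.1.natAbs + c.2 ≤ L)) ⊆
      Finset.Icc (-(L : ℤ)) L ×ˢ Finset.range (L + 1) := by
    intro c hc
    simp only [mem_filter] at hc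
    simp only [mem_product, mem_Icc, mem_range]
    omega
  have h3 := card_le_card h2
  rw [card_product, Int.card_Icc, card_range] at h3
  have h4 : ((L : ℤ) + 1 - -(L : ℤ)).toNat = 2 * L + 1 := by omega
  rw [h4] at h3
  have h5 : (2 * L + 1) * (L + 1) ≤ 6 * L ^ 2 := by nlinarith
  calc (((box n).filter (fun c => c.1.natAbs + c.2 ≤ L)).card : ℝ)
      ≤ (((2 * L + 1) * (L + 1) : ℕ) : ℝ) := by exact_mod_cast h3
    _ ≤ ((6 * L ^ 2 : ℕ) : ℝ) := by exact_mod_cast h5
    _ = 6 * (L : ℝ) ^ 2 := by push_cast; ring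

/-- The quenched law is bimodal with probability bounded below. -/
theorem VV_prob (hX : IIDCookies P X) {v t : ℝ} (hM : Mom P X v t) (hv1 : v < 1) :
    ∃ (A B G η c : ℝ) (N : ℕ), 0 < A ∧ 0 < B ∧ G ≤ N ∧ 0 < η ∧ 0 < c ∧
      N / A + 1 / B < η ∧ ∃ m0 : ℕ, ∀ m ≥ m0,
        c ≤ P.real {a | η < VV A B G m (fun c => X c a)} := by
  have hv0 := hM.v_pos
  set q : ℝ := (1 - v) / 2 * (3 / 16) with hq
  have hq0 : 0 < q := by rw [hq]; nlinarith
  have hq1 : q ≤ 3 / 32 := by rw [hq]; nlinarith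
  -- choice of b
  set C : ℝ := 1 + 16 / q + 128 / q ^ 2 with hC
  have hC0 : 0 < C := by rw [hC]; positivity
  set b : ℝ := max 16 (Real.log (8 * C / q)) with hb
  have hb16 : 16 ≤ b := le_max_left _ _
  have hbC : C * Real.exp (-b) ≤ q / 8 := by
    have h1 : Real.log (8 * C / q) ≤ b := le_max_right _ _
    have h2 : 8 * C / q ≤ Real.exp b := by
      rw [← Real.exp_log (show 0 < 8 * C / q by positivity)]
      exact Real.exp_le_exp.2 h1
    rw [div_le_iff₀ hq0] at h2
    rw [Real.exp_neg, ← div_eq_mul_inv, div_le_iff₀ (Real.exp_pos b)]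
    linarith
  have hb0 : 0 ≤ b := by linarith
  set G : ℝ := 8 / q * Real.exp b with hG
  have hG0 : 0 < G := by positivity
  set N : ℕ := ⌈G⌉₊ with hN
  have hGN : G ≤ N := Nat.le_ceil G
  have hNG : (N : ℝ) ≤ G + 1 := (Nat.ceil_lt_add_one hG0.le).le
  have hN0 : (0 : ℝ) < N := lt_of_lt_of_le hG0 hGN
  set A : ℝ := 16 * N / q with hA
  have hA0 : 0 < A := by positivity
  set B : ℝ := 16 / q with hB
  have hB0 : 0 < B := by positivity
  have hAC : 1 + A ≤ C * Real.exp b := by
    have h1 : 1 ≤ Real.exp b := Real.one_le_exp hb0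
    have h2 : A ≤ 16 * (G + 1) / q := by
      rw [hA]
      apply div_le_div_of_nonneg_right _ hq0.le
      linarith
    have h3 : 16 * (G + 1) / q = 128 / q ^ 2 * Real.exp b + 16 / q := by
      rw [hG]; field_simp; ring
    have h4 : 0 < 16 / q := by positivity
    have h5 : C * Real.exp b = Real.exp b + 16 / q * Real.exp b + 128 / q ^ 2 * Real.exp b := by
      rw [hC]; ring
    rw [h5]
    nlinarith [mul_le_mul_of_nonneg_left h1 h4.le]
  -- gap
  set ε : ℝ := q / (8 * (1 + A)) with hε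
  have hε0 : 0 < ε := by positivity
  obtain ⟨K, hK0, hK⟩ := gap_bound hb0 hε0
  have hgapA : (1 + A) * (Real.exp (b - b ^ 2 / 4) + ε) ≤ q / 4 := by
    have h1 : (1 + A) * ε = q / 8 := by rw [hε]; field_simp
    have h2 : Real.exp (b - b ^ 2 / 4) ≤ Real.exp (-(2 * b)) := by
      apply Real.exp_le_exp.2
      nlinarith
    have h3 : (1 + A) * Real.exp (b - b ^ 2 / 4) ≤ q / 8 := by
      calc (1 + A) * Real.exp (b - b ^ 2 / 4) ≤ (C * Real.exp b) * Real.exp (-(2 * b)) :=
            mul_le_mul hAC h2 (Real.exp_pos _).le (by positivity)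
        _ = C * Real.exp (-b) := by
            rw [mul_assoc, ← Real.exp_add]; congr 2; ring
        _ ≤ q / 8 := hbC
    linarith
  have hgap2 : Real.exp (b - b ^ 2 / 4) + ε ≤ 1 / 2 := by
    have h1 : 0 ≤ Real.exp (b - b ^ 2 / 4) + ε := by positivity
    nlinarith
  -- second moment bound of the density
  set Δ : ℝ := Real.exp (6 * (K : ℝ) ^ 2 * b ^ 2 / v) with hΔ
  have hΔ0 : 0 < Δ := Real.exp_pos _
  refine ⟨A, B, G, q / 4, q ^ 2 / (16 * Δ), N, hA0, hB0, hGN, by positivity, by positivity, ?_, ?_⟩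
  · have h1 : (N : ℝ) / A = q / 16 := by rw [hA]; field_simp
    have h2 : 1 / B = q / 16 := by rw [hB]; field_simp
    rw [h1, h2]
    linarith
  -- choice of m0
  obtain ⟨m1, hm1⟩ := exists_nat_ge (b + 2 * b / v + 2 * b / (1 - v))
  refine ⟨max 1 m1, ?_⟩
  intro m hm
  have hm1' : 1 ≤ m := le_trans (le_max_left _ _) hm
  have hm0 : (0 : ℝ) < m := by exact_mod_cast hm1'
  have hmm : b + 2 * b / v + 2 * b / (1 - v) ≤ m := by
    refine le_trans hm1 ?_
    exact_mod_cast le_trans (le_max_right _ _) hm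
  have hv1' : 0 < 1 - v := by linarith
  have p1 : 0 ≤ 2 * b / v := by positivity
  have p2 : 0 ≤ 2 * b / (1 - v) := by positivity
  have hbm : b ≤ m := by linarith
  set s : ℝ := b / m with hs
  have hs0 : 0 ≤ s := by positivity
  have hs1 : s ≤ v / 2 := by
    have h1 : 2 * b / v ≤ m := by linarith
    rw [div_le_iff₀ hv0] at h1
    rw [hs, div_le_iff₀ hm0]
    linarith
  have hs2 : s ≤ (1 - v) / 2 := by
    have h1 : 2 * b / (1 - v) ≤ m := by linarith
    rw [div_le_iff₀ hv1'] at h1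
    rw [hs, div_le_iff₀ hm0]
    linarith
  set L : ℕ := K * m with hL
  have hL1 : 1 ≤ L := Nat.one_le_iff_ne_zero.2 (Nat.mul_ne_zero hK0.ne' (by omega))
  set n : ℕ := m ^ 2 with hn
  have hgap := hK m hm1' hbm
  have hout := outer_bound hb0 hG0 hm1' hbm L
  have hX01 : ∀ a, ∀ c, 0 ≤ (fun c => X c a) c ∧ (fun c => X c a) c ≤ 1 := fun a c => hX.mem c a
  -- p
  set p : ℝ := Ex (pt s L) n iP with hp
  have hpt := pt_mem hs0 (by linarith : s ≤ 1) L
  have hpp : 1 / 4 ≤ p ∧ p ≤ 1 / 2 := by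
    have h1 : Ex (pt s L) n iP = Ex (pt s L) n (fun h => if pos h < 0 then 1 else 0) :=
      Ex_symm s L n
    have h2 : Ex (pt s L) n iP + Ex (pt s L) n (fun h => if pos h < 0 then 1 else 0)
        + Ex (pt s L) n (fun h => if pos h = 0 then 1 else 0) = 1 := by
      rw [← Ex_add, ← Ex_add]
      refine Eq.trans ?_ (Ex_const (pt s L) n 1)
      apply Ex_congr n (fun _ _ => rfl)
      intro h _
      unfold iP
      rcases lt_trichotomy (pos h) 0 with h3 | h3 | h3
      · simp [h3, not_lt.2 h3.le, h3.ne]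
      · simp [h3]
      · simp [h3, not_lt.2 h3.le, h3.ne']
    have h3 : Ex (pt s L) n (fun h => if pos h = 0 then 1 else 0) ≤ 1 / 2 := by
      refine le_trans (Ex_mono hpt n ?_) (le_trans hgap hgap2)
      intro h _
      by_cases h4 : pos h = 0
      · simp [h4, hm0]
      · simp only [h4, if_false]
        split_ifs <;> norm_num
    have h4 : 0 ≤ Ex (pt s L) n (fun h => if pos h = 0 then (1 : ℝ) else 0) :=
      Ex_nonneg hpt n (fun h => by split_ifs <;> norm_num)
    constructor <;> linarith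
  -- integrals
  set D : Ω → ℝ := fun a => DD s L v n (fun c => X c a) with hD
  have hD0 : ∀ a, 0 ≤ D a := fun a => DD_nonneg hX hv0 hs0 (by linarith) L n a
  obtain ⟨iF, eF⟩ := integral_DD_EW hX hM s L n iP
  obtain ⟨iF2, eF2⟩ := integral_DD_EW_sq hX hM s L n iP
  obtain ⟨iMM, eMM⟩ := integral_DD_EW hX hM s L n (iM m)
  obtain ⟨iOO, eOO⟩ := integral_DD_EW hX hM s L n (iO G m)
  obtain ⟨iD2, eD2⟩ := integral_DD_sq hX hM s L n
  have hQ := QQ_bound hM hs0 hs1 hs2 L n (Φ := iP)
    (fun h => by unfold iP; split_ifs <;> norm_num)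
  rw [← eF2] at hQ
  obtain ⟨i1, e1⟩ := integral_DD_EW hX hM s L n (fun _ => 1)
  have hEW1 : ∀ a, EW (fun c => X c a) n (fun _ => 1) = 1 := fun a => Ex_const _ n 1
  simp only [hEW1, mul_one, Ex_const] at i1 e1
  have hgapE : Ex (pt s L) n (iM m) ≤ Real.exp (b - b ^ 2 / 4) + ε := hgap
  have houtE : Ex (pt s L) n (iO G m) ≤ (1 + b) * Real.exp b / G ^ 2 := hout
  have hBO : B * Ex (pt s L) n (iO G m) ≤ q / 4 := by
    have h1 : (1 + b) * Real.exp b / G ^ 2 ≤ q ^ 2 / 64 := by
      have h2 : 1 + b ≤ Real.exp b := by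
        have := Real.add_one_le_exp b
        linarith
      rw [hG, div_le_iff₀ (by positivity)]
      have h3 : q ^ 2 / 64 * (8 / q * Real.exp b) ^ 2 = Real.exp b * Real.exp b := by
        field_simp; ring
      rw [h3]
      exact mul_le_mul_of_nonneg_right h2 (Real.exp_pos b).le
    calc B * Ex (pt s L) n (iO G m) ≤ B * (q ^ 2 / 64) :=
          mul_le_mul_of_nonneg_left (houtE.trans h1) hB0.le
      _ = q / 4 := by rw [hB]; field_simp; norm_num
  -- lower bound of E[D V]
  set V : Ω → ℝ := fun a => VV A B G m (fun c => X c a) with hV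
  have hVm : Measurable V := VV_measurable hX A B G m
  have hDm : Measurable D := DD_measurable hX s L v n
  have hlow : ∀ a, D a * EW (fun c => X c a) n iP - D a * (EW (fun c => X c a) n iP) ^ 2
      - (1 + A) * (D a * EW (fun c => X c a) n (iM m))
      - B * (D a * EW (fun c => X c a) n (iO G m)) ≤ D a * V a := by
    intro a
    have h1 := VV_lower (hX01 a) hm1' A B G
    have h2 := mul_le_mul_of_nonneg_left h1 (hD0 a)
    refine le_trans (le_of_eq ?_) h2
    ring
  set W : Set Ω := {a | q / 4 < V a} with hW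
  have hWm : MeasurableSet W := measurableSet_lt measurable_const hVm
  -- upper bound
  set lam : ℝ := q / (4 * Δ) with hlam
  have hlam0 : 0 < lam := by positivity
  have hup : ∀ a, D a * V a ≤ q / 4 * D a + (lam / 2 * (D a) ^ 2
      + 1 / (2 * lam) * W.indicator (fun _ => (1 : ℝ)) a) := by
    intro a
    have hd := hD0 a
    by_cases ha : a ∈ W
    · rw [Set.indicator_of_mem ha]
      have h1 : V a ≤ 1 := VV_le_one (hX01 a) hA0.le hB0.le G
      have h2 : D a * V a ≤ D a := by nlinarith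
      have h3 : lam / 2 * (D a) ^ 2 + 1 / (2 * lam) * 1 - D a
          = (lam * D a - 1) ^ 2 / (2 * lam) := by
        field_simp; ring
      have h4 : 0 ≤ (lam * D a - 1) ^ 2 / (2 * lam) := by positivity
      have h5 : 0 ≤ q / 4 * D a := by positivity
      linarith
    · rw [Set.indicator_of_notMem ha]
      have h1 : V a ≤ q / 4 := not_lt.1 ha
      have h2 : D a * V a ≤ q / 4 * D a := by nlinarith
      have h3 : 0 ≤ lam / 2 * (D a) ^ 2 := by positivity
      linarith
  have hcomb : ∀ a, D a * EW (fun c => X c a) n iP - D a * (EW (fun c => X c a) n iP) ^ 2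
      - (1 + A) * (D a * EW (fun c => X c a) n (iM m))
      - B * (D a * EW (fun c => X c a) n (iO G m))
      ≤ q / 4 * D a + (lam / 2 * (D a) ^ 2
      + 1 / (2 * lam) * W.indicator (fun _ => (1 : ℝ)) a) := fun a => (hlow a).trans (hup a)
  have j1 : Integrable (fun a => D a * EW (fun c => X c a) n iP
      - D a * (EW (fun c => X c a) n iP) ^ 2) P := iF.sub iF2
  have j2 : Integrable (fun a => D a * EW (fun c => X c a) n iP
      - D a * (EW (fun c => X c a) n iP) ^ 2
      - (1 + A) * (D a * EW (fun c => X c a) n (iM m))) P := j1.sub (iMM.const_mul _)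
  have j3 : Integrable (fun a => D a * EW (fun c => X c a) n iP
      - D a * (EW (fun c => X c a) n iP) ^ 2
      - (1 + A) * (D a * EW (fun c => X c a) n (iM m))
      - B * (D a * EW (fun c => X c a) n (iO G m))) P := j2.sub (iOO.const_mul _)
  have jI : Integrable (W.indicator (fun _ => (1 : ℝ))) P :=
    (integrable_const (1 : ℝ)).indicator hWm
  have j4 : Integrable (fun a => lam / 2 * (D a) ^ 2
      + 1 / (2 * lam) * W.indicator (fun _ => (1 : ℝ)) a) P :=
    (iD2.const_mul _).add (jI.const_mul _)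
  have j5 : Integrable (fun a => q / 4 * D a + (lam / 2 * (D a) ^ 2
      + 1 / (2 * lam) * W.indicator (fun _ => (1 : ℝ)) a)) P := (i1.const_mul _).add j4
  have hint := integral_mono j3 j5 hcomb
  rw [integral_sub j2 (iOO.const_mul _), integral_sub j1 (iMM.const_mul _), integral_sub iF iF2,
    integral_const_mul, integral_const_mul, integral_add (i1.const_mul _) j4,
    integral_add (iD2.const_mul _) (jI.const_mul _), integral_const_mul, integral_const_mul,
    integral_const_mul, integral_indicator_const _ hWm] at hint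
  have hEF : ∫ a, D a * EW (fun c => X c a) n iP ∂P = p := eF
  have hEM : ∫ a, D a * EW (fun c => X c a) n (iM m) ∂P = Ex (pt s L) n (iM m) := eMM
  have hEO : ∫ a, D a * EW (fun c => X c a) n (iO G m) ∂P = Ex (pt s L) n (iO G m) := eOO
  have hE1 : ∫ a, D a ∂P = 1 := e1
  rw [hEF, hEM, hEO, hE1] at hint
  have hD2 : ∫ a, (D a) ^ 2 ∂P ≤ Δ := by
    have h1 : ∫ a, (D a) ^ 2 ∂P = ∏ c ∈ box n, (1 + dlt s L c ^ 2 / v) := eD2
    rw [h1]
    have h2 : ∏ c ∈ box n, (1 + dlt s L c ^ 2 / v)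
        ≤ ∏ c ∈ box n, Real.exp (dlt s L c ^ 2 / v) := by
      apply prod_le_prod
      · intro c _
        positivity
      · intro c _
        have := Real.add_one_le_exp (dlt s L c ^ 2 / v)
        linarith
    refine le_trans h2 ?_
    rw [← Real.exp_sum, hΔ]
    apply Real.exp_le_exp.2
    rw [← sum_div]
    apply div_le_div_of_nonneg_right _ hv0.le
    refine le_trans (sum_dlt_sq hs0 hL1 n) (le_of_eq ?_)
    rw [hL, hs]
    push_cast
    field_simp
  have hQ' : ∫ a, D a * (EW (fun c => X c a) n iP) ^ 2 ∂P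
      ≤ (1 - v) / 2 * p ^ 2 + (1 + v) / 2 * p := hQ
  have hlow2 : q ≤ p - ∫ a, D a * (EW (fun c => X c a) n iP) ^ 2 ∂P := by
    have h1 : 3 / 16 ≤ p * (1 - p) := by nlinarith [hpp.1, hpp.2]
    have h2 : q ≤ (1 - v) / 2 * (p * (1 - p)) := by
      rw [hq]
      exact mul_le_mul_of_nonneg_left h1 (by linarith)
    nlinarith
  have hgapM : (1 + A) * Ex (pt s L) n (iM m) ≤ q / 4 :=
    le_trans (mul_le_mul_of_nonneg_left hgapE (by linarith)) hgapA
  have hlamΔ : lam / 2 * ∫ a, (D a) ^ 2 ∂P ≤ q / 8 := by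
    calc lam / 2 * ∫ a, (D a) ^ 2 ∂P ≤ lam / 2 * Δ :=
          mul_le_mul_of_nonneg_left hD2 (by positivity)
      _ = q / 8 := by rw [hlam]; field_simp; norm_num
  rw [smul_eq_mul, mul_one] at hint
  have hfin : q / 8 ≤ 1 / (2 * lam) * P.real W := by linarith
  have h2 : q / 4 * lam ≤ P.real W := by
    rw [one_div, inv_mul_eq_div, le_div_iff₀ (by positivity)] at hfin
    linarith
  refine le_trans (le_of_eq ?_) h2
  rw [hlam]
  field_simp
  norm_num

end Q171.ERW
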