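import Mathlib
import Pool.Agent.Q171.ERW.Prob

/-! # A quenched CLT forces the bimodality functional to be small -/

open MeasureTheory ProbabilityTheory Filter Topology Set
open scoped NNReal

namespace Q171.ERW

/-- Gaussian distribution function with mean zero. -/
noncomputable def Phi (v : ℝ≥0) (x : ℝ) : ℝ := (gaussianReal 0 v).real (Iic x)

lemma Phi_sub {v : ℝ≥0} (hv : v ≠ 0) {x y : ℝ} (hxy : x ≤ y) :
    Phi v y - Phi v x = ∫ u in x..y, gaussianPDFReal 0 v u := by
  have h1 : (gaussianReal 0 v).real (Iic y)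
      = (gaussianReal 0 v).real (Iic x) + (gaussianReal 0 v).real (Ioc x y) := by
    rw [← measureReal_union _ measurableSet_Ioc]
    · rw [Iic_union_Ioc_eq_Iic hxy]
    · rw [Set.disjoint_left]
      intro u hu hu'
      exact absurd hu (not_le.2 hu'.1)
  have h2 : (gaussianReal 0 v).real (Ioc x y) = ∫ u in Ioc x y, gaussianPDFReal 0 v u := by
    rw [Measure.real, gaussianReal_apply_eq_integral 0 hv, ENNReal.toReal_ofReal]
    exact setIntegral_nonneg measurableSet_Ioc (fun u _ => gaussianPDFReal_nonneg 0 v u)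
  unfold Phi
  rw [intervalIntegral.integral_of_le hxy, h1, h2]
  ring

lemma Phi_mono (v : ℝ≥0) : Monotone (Phi v) := fun x y hxy =>
  measureReal_mono (Iic_subset_Iic.2 hxy)

lemma Phi_cont {v : ℝ≥0} (hv : v ≠ 0) : Continuous (Phi v) := by
  have h1 : Phi v = fun x => Phi v 0 + ∫ u in (0 : ℝ)..x, gaussianPDFReal 0 v u := by
    funext x
    rcases le_total 0 x with h | h
    · rw [← Phi_sub hv h]; ring
    · rw [intervalIntegral.integral_symm, ← Phi_sub hv h]; ring
  rw [h1]
  exact continuous_const.add ((integrable_gaussianPDFReal 0 v).continuous_primitive 0)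

lemma Phi_neg {v : ℝ≥0} (hv : v ≠ 0) (x : ℝ) : Phi v (-x) = 1 - Phi v x := by
  have h1 : (gaussianReal 0 v).map (fun x => -x) = gaussianReal 0 v := by
    rw [gaussianReal_map_neg, neg_zero]
  have h2 : (gaussianReal 0 v).real (Iic (-x)) = (gaussianReal 0 v).real (Ici x) := by
    conv_lhs => rw [← h1]
    rw [map_measureReal_apply measurable_neg measurableSet_Iic]
    congr 1
    ext u
    simp
  have := nullSingletonClass_gaussianReal (μ := 0) hv
  have h3 : (gaussianReal 0 v).real (Ici x) = 1 - (gaussianReal 0 v).real (Iio x) := by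
    rw [← compl_Iio, probReal_compl_eq_one_sub measurableSet_Iio]
  have h4 : (gaussianReal 0 v).real (Iio x) = (gaussianReal 0 v).real (Iic x) :=
    measureReal_congr Iio_ae_eq_Iic
  unfold Phi
  rw [h2, h3, h4]

lemma Phi_unimodal {v : ℝ≥0} (hv : v ≠ 0) {y z : ℝ} (hy : 0 ≤ y) (hyz : y ≤ z) :
    Phi v (z + 1) - Phi v z ≤ Phi v (y + 1) - Phi v y := by
  rw [Phi_sub hv (by linarith), Phi_sub hv (by linarith)]
  have h1 : ∫ u in z..(z + 1), gaussianPDFReal 0 v u
      = ∫ u in y..(y + 1), gaussianPDFReal 0 v (u + (z - y)) := by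
    rw [intervalIntegral.integral_comp_add_right (fun u => gaussianPDFReal 0 v u) (z - y)]
    congr 1 <;> ring
  rw [h1]
  have hc : Continuous (fun u => gaussianPDFReal 0 v u) := by
    unfold gaussianPDFReal
    fun_prop
  apply intervalIntegral.integral_mono_on (by linarith)
  · exact (hc.comp (continuous_add_const (z - y))).intervalIntegrable _ _
  · exact hc.intervalIntegrable _ _
  · intro u hu
    unfold gaussianPDFReal
    apply mul_le_mul_of_nonneg_left _ (by positivity)
    apply Real.exp_le_exp.2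
    apply div_le_div_of_nonneg_right _ (by positivity)
    have h2 : 0 ≤ u := le_trans hy hu.1
    nlinarith

lemma Phi_telescope {v : ℝ≥0} (hv : v ≠ 0) {y : ℝ} (hy : 0 ≤ y) (N : ℕ) :
    Phi v (y + N) - Phi v y ≤ N * (Phi v (y + 1) - Phi v y) := by
  induction N with
  | zero => simp
  | succ N ih =>
    have h1 := Phi_unimodal hv hy (z := y + N) (by
      have : (0 : ℝ) ≤ N := Nat.cast_nonneg N
      linarith)
    push_cast
    have h2 : y + ((N : ℝ) + 1) = y + N + 1 := by ring
    rw [h2]
    linarith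

/-- The contradiction in the limit. -/
lemma limit_contra {v : ℝ≥0} (hv : v ≠ 0) {a α β η G : ℝ} {N : ℕ} (hGN : G ≤ N)
    (hη : N * α + β < η)
    (h1 : Phi v (1 - a) ≤ 1 - η) (h2 : η ≤ Phi v (-1 - a))
    (h3 : Phi v (1 - a) - Phi v (-1 - a) ≤ α)
    (h4 : 1 - Phi v (G - a) ≤ β) (h5 : Phi v (-G - a) ≤ β) : False := by
  have hN : (0 : ℝ) ≤ N := Nat.cast_nonneg N
  rcases le_total a 0 with ha | ha
  · have hy : 0 ≤ -a := by linarith
    have k1 := Phi_telescope hv hy N
    have k2 : Phi v (-1 - a) ≤ Phi v (-a) := Phi_mono v (by linarith)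
    have k3 : Phi v (-a + 1) - Phi v (-a) ≤ α := by
      have : -a + 1 = 1 - a := by ring
      rw [this]
      linarith
    have k4 : 1 - Phi v (-a + N) ≤ β := by
      have : Phi v (G - a) ≤ Phi v (-a + N) := Phi_mono v (by linarith)
      linarith
    have k5 : Phi v (-a) ≤ Phi v (1 - a) := Phi_mono v (by linarith)
    nlinarith [mul_le_mul_of_nonneg_left k3 hN]
  · have k1 := Phi_telescope hv ha N
    have e1 : Phi v (-a) = 1 - Phi v a := Phi_neg hv a
    have e2 : Phi v (-1 - a) = 1 - Phi v (a + 1) := by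
      rw [← Phi_neg hv]; congr 1; ring
    have e3 : Phi v (-(a + N)) = 1 - Phi v (a + N) := Phi_neg hv _
    have k2 : Phi v (-a) ≤ Phi v (1 - a) := Phi_mono v (by linarith)
    have k3 : Phi v (a + 1) - Phi v a ≤ α := by linarith
    have k4 : Phi v (-(a + N)) ≤ β := le_trans (Phi_mono v (by linarith)) h5
    have k5 : Phi v (-1 - a) ≤ Phi v (-a) := Phi_mono v (by linarith)
    nlinarith [mul_le_mul_of_nonneg_left k3 hN]

end Q171.ERW
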