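import Mathlib
import Pool.Agent.Q171.ERW.Gauss

/-! # A quenched CLT forces the bimodality functional to be small -/

open MeasureTheory ProbabilityTheory Filter Topology Set
open scoped NNReal

namespace Q171.ERW

/-- The quenched distribution function `P_w (X_n ≤ x)`. -/
noncomputable def qcdf (w : ℤ × ℕ → ℝ) (n : ℕ) (x : ℝ) : ℝ :=
  Ex (fun h => w (cookie h)) n (fun h => if (pos h : ℝ) ≤ x then 1 else 0)

/-- The quenched central limit theorem in the environment `w`: for some centring `c n` and some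
`v > 0`, `(X_n - c n) / √n` converges in distribution under `P_w` to `N(0, v)`. -/
def QuenchedCLT (w : ℤ × ℕ → ℝ) : Prop :=
  ∃ c : ℕ → ℝ, ∃ v : ℝ≥0, v ≠ 0 ∧ ∀ t : ℝ,
    Tendsto (fun n : ℕ => qcdf w n (c n + t * Real.sqrt n)) atTop
      (𝓝 ((gaussianReal 0 v).real (Iic t)))

lemma le_of_forall_lt_cont {f : ℝ → ℝ} (hf : Continuous f) {x0 c : ℝ}
    (h : ∀ x < x0, f x ≤ c) : f x0 ≤ c :=
  le_of_tendsto (hf.continuousWithinAt (s := Iio x0) (x := x0))
    (eventually_nhdsWithin_of_forall h)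

lemma qcdf_mono {w : ℤ × ℕ → ℝ} (hw : ∀ c, 0 ≤ w c ∧ w c ≤ 1) (n : ℕ) : Monotone (qcdf w n) := by
  intro x y hxy
  apply Ex_mono (fun h => hw (cookie h))
  intro h _
  split_ifs with h1 h2
  · exact le_rfl
  · exact absurd (h1.trans hxy) h2
  · norm_num
  · exact le_rfl

/-- Facts at one scale. -/
lemma facts {w : ℤ × ℕ → ℝ} (hw : ∀ c, 0 ≤ w c ∧ w c ≤ 1) {A B G η : ℝ} (hA : 0 < A)
    (hB : 0 < B) (hη : 0 < η) {m : ℕ} (hm : 1 ≤ m) (hV : η < VV A B G m w) :
    (∀ x < 1, qcdf w (m ^ 2) (x * m) < 1 - η) ∧ η < qcdf w (m ^ 2) (-1 * m) ∧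
    (∀ x < 1, qcdf w (m ^ 2) (x * m) - qcdf w (m ^ 2) (-1 * m) ≤ 1 / A) ∧
    1 - qcdf w (m ^ 2) (G * m) ≤ 1 / B ∧
    (∀ x < -G, qcdf w (m ^ 2) (x * m) ≤ 1 / B) := by
  have hm0 : (0 : ℝ) < m := by exact_mod_cast hm
  have hw' : ∀ h, 0 ≤ (fun h => w (cookie h)) h ∧ (fun h => w (cookie h)) h ≤ 1 :=
    fun h => hw (cookie h)
  have r0 : ∀ Φ : List Bool → ℝ, (∀ h, 0 ≤ Φ h ∧ Φ h ≤ 1) →
      0 ≤ EW w (m ^ 2) Φ ∧ EW w (m ^ 2) Φ ≤ 1 := fun Φ hΦ =>
    ⟨Ex_nonneg hw' _ (fun h => (hΦ h).1), Ex_le_one hw' _ (fun h => (hΦ h).2)⟩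
  have hR := r0 (iR m) (fun h => by unfold iR; split_ifs <;> norm_num)
  have hL := r0 (iL m) (fun h => by unfold iL; split_ifs <;> norm_num)
  have hM := r0 (iM m) (fun h => by unfold iM; split_ifs <;> norm_num)
  have hO := r0 (iO G m) (fun h => by unfold iO; split_ifs <;> norm_num)
  have hLe : EW w (m ^ 2) (iL m) = qcdf w (m ^ 2) (-1 * m) := by
    unfold qcdf EW
    apply Ex_congr _ (fun _ _ => rfl)
    intro h _
    unfold iL
    simp
  unfold VV at hV
  set R := EW w (m ^ 2) (iR m)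
  set L := EW w (m ^ 2) (iL m)
  set M := EW w (m ^ 2) (iM m)
  set O := EW w (m ^ 2) (iO G m)
  have q1 : 0 ≤ A * M := mul_nonneg hA.le hM.1
  have q2 : 0 ≤ B * O := mul_nonneg hB.le hO.1
  have q3 : R * L ≤ R := by nlinarith [hR.1, hL.2]
  have q4 : R * L ≤ L := by nlinarith [hR.2, hL.1]
  have q5 : M ≤ 1 / A := by
    rw [le_div_iff₀ hA]
    nlinarith [hR.2]
  have q6 : O ≤ 1 / B := by
    rw [le_div_iff₀ hB]
    nlinarith [hR.2]
  refine ⟨?_, ?_, ?_, ?_, ?_⟩
  · intro x hx
    have h1 : R + qcdf w (m ^ 2) (x * m) ≤ 1 := by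
      have h2 : R + qcdf w (m ^ 2) (x * m) = Ex (fun h => w (cookie h)) (m ^ 2)
          (fun h => iR m h + (if (pos h : ℝ) ≤ x * m then 1 else 0)) := (Ex_add _ _ _ _).symm
      rw [h2]
      apply Ex_le_one hw'
      intro h
      unfold iR
      split_ifs with h3 h4
      · exfalso
        nlinarith
      · norm_num
      · norm_num
      · norm_num
    linarith
  · rw [← hLe]; linarith
  · intro x hx
    have h1 : qcdf w (m ^ 2) (x * m) ≤ M + qcdf w (m ^ 2) (-1 * m) := by
      have h2 : M + qcdf w (m ^ 2) (-1 * m) = Ex (fun h => w (cookie h)) (m ^ 2)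
          (fun h => iM m h + (if (pos h : ℝ) ≤ -1 * m then 1 else 0)) := (Ex_add _ _ _ _).symm
      rw [h2]
      apply Ex_mono hw'
      intro h _
      unfold iM
      by_cases h3 : (pos h : ℝ) ≤ x * m
      · by_cases h4 : (pos h : ℝ) ≤ -1 * m
        · rw [if_pos h3, if_pos h4]
          split_ifs <;> norm_num
        · have h5 : |(pos h : ℝ)| < m := by
            rw [abs_lt]
            constructor <;> nlinarith
          rw [if_pos h3, if_pos h5, if_neg h4]
          norm_num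
      · rw [if_neg h3]
        split_ifs <;> norm_num
    linarith
  · have h1 : 1 ≤ O + qcdf w (m ^ 2) (G * m) := by
      have h2 : O + qcdf w (m ^ 2) (G * m) = Ex (fun h => w (cookie h)) (m ^ 2)
          (fun h => iO G m h + (if (pos h : ℝ) ≤ G * m then 1 else 0)) := (Ex_add _ _ _ _).symm
      rw [h2]
      refine le_trans (le_of_eq (Ex_const (fun h => w (cookie h)) (m ^ 2) 1).symm) ?_
      apply Ex_mono hw'
      intro h _
      unfold iO
      by_cases h3 : (pos h : ℝ) ≤ G * m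
      · rw [if_pos h3]
        split_ifs <;> norm_num
      · have h4 : G * m < |(pos h : ℝ)| := lt_of_lt_of_le (not_le.1 h3) (le_abs_self _)
        rw [if_pos h4, if_neg h3]
        norm_num
    linarith
  · intro x hx
    refine le_trans ?_ q6
    apply Ex_mono hw'
    intro h _
    unfold iO
    by_cases h3 : (pos h : ℝ) ≤ x * m
    · have h4 : G * m < |(pos h : ℝ)| := by
        have := neg_abs_le (pos h : ℝ)
        nlinarith
      rw [if_pos h3, if_pos h4]
    · rw [if_neg h3]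
      split_ifs <;> norm_num

/-- Under the quenched CLT the bimodality functional is eventually small. -/
theorem clt_VV {w : ℤ × ℕ → ℝ} (hw : ∀ c, 0 ≤ w c ∧ w c ≤ 1) (hclt : QuenchedCLT w)
    {A B G η : ℝ} {N : ℕ} (hA : 0 < A) (hB : 0 < B) (hGN : G ≤ N) (hη : N / A + 1 / B < η) :
    ∀ᶠ m : ℕ in atTop, VV A B G m w ≤ η := by
  have hη0 : 0 < η := lt_of_le_of_lt (by positivity) hη
  by_contra hcon
  rw [Filter.not_eventually] at hcon
  obtain ⟨φ, hφ, hV⟩ := extraction_of_frequently_atTop hcon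
  simp only [not_le] at hV
  obtain ⟨c, v, hv, hlim⟩ := hclt
  set F : ℕ → ℝ → ℝ := fun k x => qcdf w ((φ k) ^ 2) (x * φ k) with hF
  set C : ℕ → ℝ := fun k => c ((φ k) ^ 2) / φ k with hC
  have hφ1 : ∀ᶠ k in atTop, 1 ≤ φ k := (hφ.tendsto_atTop).eventually_ge_atTop 1
  have hFlim : ∀ t : ℝ, Tendsto (fun k => F k (C k + t)) atTop (𝓝 (Phi v t)) := by
    intro t
    have h1 : Tendsto (fun k => (φ k) ^ 2) atTop atTop :=
      (tendsto_pow_atTop (by norm_num : (2 : ℕ) ≠ 0)).comp hφ.tendsto_atTop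
    have h2 := (hlim t).comp h1
    refine Tendsto.congr' ?_ h2
    filter_upwards [hφ1] with k hk
    have hk0 : (0 : ℝ) < φ k := by exact_mod_cast hk
    simp only [Function.comp, hF, hC]
    congr 1
    push_cast
    rw [Real.sqrt_sq hk0.le]
    field_simp
  have hFmono : ∀ k, Monotone (F k) := by
    intro k x y hxy
    exact qcdf_mono hw _ (mul_le_mul_of_nonneg_right hxy (Nat.cast_nonneg _))
  have hfacts : ∀ᶠ k in atTop, (∀ x < 1, F k x < 1 - η) ∧ η < F k (-1) ∧
      (∀ x < 1, F k x - F k (-1) ≤ 1 / A) ∧ 1 - F k G ≤ 1 / B ∧ (∀ x < -G, F k x ≤ 1 / B) := by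
    filter_upwards [hφ1] with k hk
    exact facts hw hA hB hη0 hk (hV k)
  -- boundedness
  obtain ⟨t0, ht0⟩ : ∃ t0, Phi v t0 < η := by
    have h1 := tendsto_cdf_atBot (μ := gaussianReal 0 v)
    obtain ⟨t0, ht0⟩ := (h1.eventually_lt_const hη0).exists
    refine ⟨t0, ?_⟩
    rw [cdf_eq_real] at ht0
    exact ht0
  obtain ⟨t1, ht1⟩ : ∃ t1, 1 - η < Phi v t1 := by
    have h1 := tendsto_cdf_atTop (μ := gaussianReal 0 v)
    obtain ⟨t1, ht1⟩ := (h1.eventually_const_lt (by linarith : 1 - η < 1)).exists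
    refine ⟨t1, ?_⟩
    rw [cdf_eq_real] at ht1
    exact ht1
  have hbdd : ∀ᶠ k in atTop, C k ∈ Icc (1 - t1) (-1 - t0) := by
    filter_upwards [hfacts, (hFlim t0).eventually_lt_const ht0,
      (hFlim t1).eventually_const_lt ht1] with k hk h0 h1
    constructor
    · by_contra h2
      have := hk.1 (C k + t1) (by linarith [not_le.1 h2])
      linarith
    · by_contra h2
      have := hFmono k (show -1 ≤ C k + t0 by linarith [not_le.1 h2])
      linarith [hk.2.1]
  obtain ⟨a, -, ψ, hψ, hCa⟩ := tendsto_subseq_of_frequently_bounded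
    (Metric.isBounded_Icc (1 - t1) (-1 - t0)) hbdd.frequently
  have hψt := hψ.tendsto_atTop
  have hΦc := Phi_cont hv
  have hconv : ∀ x : ℝ, Tendsto (fun k => F (ψ k) x) atTop (𝓝 (Phi v (x - a))) := by
    intro x
    rw [tendsto_order]
    constructor
    · intro y hy
      have h1 : ∀ᶠ δ in 𝓝[>] (0 : ℝ), y < Phi v (x - a - δ) := by
        have : Tendsto (fun δ : ℝ => Phi v (x - a - δ)) (𝓝[>] 0) (𝓝 (Phi v (x - a - 0))) :=
          ((hΦc.comp (continuous_const.sub continuous_id)).tendsto 0).mono_left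
            nhdsWithin_le_nhds
        rw [sub_zero] at this
        exact this.eventually_const_lt hy
      obtain ⟨δ, hδ, hδ0⟩ := (h1.and self_mem_nhdsWithin).exists
      have hδ0' : (0 : ℝ) < δ := hδ0
      filter_upwards [((hFlim (x - a - δ)).comp hψt).eventually_const_lt hδ,
        hCa.eventually_lt_const (show a < a + δ by linarith)] with k hk1 hk2
      refine lt_of_lt_of_le hk1 (hFmono _ ?_)
      simp only [Function.comp] at hk2
      linarith
    · intro y hy
      have h1 : ∀ᶠ δ in 𝓝[>] (0 : ℝ), Phi v (x - a + δ) < y := by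
        have : Tendsto (fun δ : ℝ => Phi v (x - a + δ)) (𝓝[>] 0) (𝓝 (Phi v (x - a + 0))) :=
          ((hΦc.comp (continuous_const.add continuous_id)).tendsto 0).mono_left
            nhdsWithin_le_nhds
        rw [add_zero] at this
        exact this.eventually_lt_const hy
      obtain ⟨δ, hδ, hδ0⟩ := (h1.and self_mem_nhdsWithin).exists
      have hδ0' : (0 : ℝ) < δ := hδ0
      filter_upwards [((hFlim (x - a + δ)).comp hψt).eventually_lt_const hδ,
        hCa.eventually_const_lt (show a - δ < a by linarith)] with k hk1 hk2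
      refine lt_of_le_of_lt (hFmono _ ?_) hk1
      simp only [Function.comp] at hk2
      linarith
  have hfacts' := hψt.eventually hfacts
  have hcs : Continuous (fun x => Phi v (x - a)) := hΦc.comp (continuous_id.sub continuous_const)
  have k1 : Phi v (1 - a) ≤ 1 - η := by
    apply le_of_forall_lt_cont hcs
    intro x hx
    apply le_of_tendsto (hconv x)
    filter_upwards [hfacts'] with k hk
    exact (hk.1 x hx).le
  have k2 : η ≤ Phi v (-1 - a) := by
    apply ge_of_tendsto (hconv (-1))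
    filter_upwards [hfacts'] with k hk
    exact hk.2.1.le
  have k3 : Phi v (1 - a) - Phi v (-1 - a) ≤ 1 / A := by
    have h1 : Continuous (fun x => Phi v (x - a) - Phi v (-1 - a)) := hcs.sub continuous_const
    apply le_of_forall_lt_cont h1
    intro x hx
    apply le_of_tendsto ((hconv x).sub (hconv (-1)))
    filter_upwards [hfacts'] with k hk
    exact hk.2.2.1 x hx
  have k4 : 1 - Phi v (G - a) ≤ 1 / B := by
    apply le_of_tendsto ((hconv G).const_sub 1)
    filter_upwards [hfacts'] with k hk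
    exact hk.2.2.2.1
  have k5 : Phi v (-G - a) ≤ 1 / B := by
    apply le_of_forall_lt_cont hcs
    intro x hx
    apply le_of_tendsto (hconv x)
    filter_upwards [hfacts'] with k hk
    exact hk.2.2.2.2 x hx
  refine limit_contra hv hGN ?_ k1 k2 k3 k4 k5
  rw [mul_one_div]
  exact hη

end Q171.ERW
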