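import Mathlib
import Pool.Agent.Q171.ERW.Clt

/-! # Failure of the quenched CLT for i.i.d. cookies -/

open MeasureTheory ProbabilityTheory Filter Topology Set
open scoped NNReal

namespace Q171.ERW

variable {Ω : Type*} [MeasurableSpace Ω] {P : Measure Ω} [IsProbabilityMeasure P]
  {X : ℤ × ℕ → Ω → ℝ}

lemma Ex_zero_one {p Φ : List Bool → ℝ} (hp : ∀ h, p h = 0 ∨ p h = 1)
    (hΦ : ∀ h, Φ h = 0 ∨ Φ h = 1) (n : ℕ) : Ex p n Φ = 0 ∨ Ex p n Φ = 1 := by
  induction n generalizing Φ with
  | zero => exact hΦ []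
  | succ n ih =>
    simp only [Ex]
    apply ih
    intro h
    rcases hp h with h1 | h1
    · simp [h1, hΦ]
    · simp [h1, hΦ]

/-- No CLT in a deterministic environment. -/
lemma not_clt_of_zero_one {w : ℤ × ℕ → ℝ} (hw : ∀ c, w c = 0 ∨ w c = 1) : ¬ QuenchedCLT w := by
  rintro ⟨c, v, hv, hlim⟩
  have h1 := hlim 0
  have h2 : (gaussianReal 0 v).real (Iic 0) = 1 / 2 := by
    have h3 : Phi v (-0) = 1 - Phi v 0 := Phi_neg hv 0
    rw [neg_zero] at h3
    unfold Phi at h3
    linarith
  rw [h2] at h1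
  have h3 := (h1.eventually_const_lt (show (1 / 4 : ℝ) < 1 / 2 by norm_num)).and
    (h1.eventually_lt_const (show (1 / 2 : ℝ) < 3 / 4 by norm_num))
  obtain ⟨n, hn1, hn2⟩ := h3.exists
  have h4 : qcdf w n (c n + 0 * Real.sqrt n) = 0 ∨ qcdf w n (c n + 0 * Real.sqrt n) = 1 := by
    apply Ex_zero_one (fun h => hw (cookie h))
    intro h
    split_ifs
    · exact Or.inr rfl
    · exact Or.inl rfl
  rcases h4 with h4 | h4 <;> rw [h4] at hn1 hn2 <;> linarith

/-- The moments of a non-trivial cookie with mean `1/2`. -/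
lemma exists_mom (hX : IIDCookies P X) (hmean : ∫ a, X (0, 1) a ∂P = 1 / 2)
    (hnt : ¬ ∀ᵐ a ∂P, X (0, 1) a = 1 / 2) : ∃ v t, Mom P X v t := by
  have i1 := integrable_pow hX 1
  simp only [pow_one] at i1
  have i2 := integrable_pow hX 2
  have i3 := integrable_pow hX 3
  have hb : ∀ a, |2 * X (0, 1) a - 1| ≤ 1 := fun a => by
    have := hX.mem (0, 1) a
    rw [abs_le]
    constructor <;> linarith
  have iX : Integrable (X (0, 1)) P := by
    apply Integrable.of_bound (C := 1) (hX.meas _).aestronglyMeasurable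
    refine Filter.Eventually.of_forall (fun a => ?_)
    have := hX.mem (0, 1) a
    rw [Real.norm_eq_abs, abs_le]
    constructor <;> linarith
  refine ⟨∫ a, (2 * X (0, 1) a - 1) ^ 2 ∂P, ∫ a, (2 * X (0, 1) a - 1) ^ 3 ∂P, ?_, ?_, ?_, ?_,
    rfl, rfl⟩
  · have h0 : 0 ≤ ∫ a, (2 * X (0, 1) a - 1) ^ 2 ∂P := integral_nonneg (fun a => sq_nonneg _)
    refine lt_of_le_of_ne h0 (fun h => hnt ?_)
    have h1 := (integral_eq_zero_iff_of_nonneg (fun a => sq_nonneg _) i2).1 h.symm
    filter_upwards [h1] with a ha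
    have h2 : (2 * X (0, 1) a - 1) ^ 2 = 0 := ha
    have h3 : 2 * X (0, 1) a - 1 = 0 := by
      exact pow_eq_zero_iff (two_ne_zero) |>.1 h2
    linarith
  · have h1 : ∫ a, (2 * X (0, 1) a - 1) ^ 2 ∂P ≤ ∫ _, (1 : ℝ) ∂P := by
      apply integral_mono i2 (integrable_const _)
      intro a
      have := hb a
      simp only
      rw [← sq_abs]
      exact pow_le_one₀ (abs_nonneg _) this
    simpa using h1
  · refine le_trans (abs_integral_le_integral_abs) ?_
    apply integral_mono i3.abs i2
    intro a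
    have h1 := hb a
    simp only
    rw [abs_pow, ← sq_abs (2 * X (0, 1) a - 1)]
    exact pow_le_pow_of_le_one (abs_nonneg _) h1 (by norm_num)
  · rw [integral_sub (iX.const_mul 2) (integrable_const _), integral_const_mul, hmean]
    simp

/-- **Failure of the quenched CLT.** -/
theorem quenched_clt_fails (hX : IIDCookies P X) (hmean : ∫ a, X (0, 1) a ∂P = 1 / 2)
    (hnt : ¬ ∀ᵐ a ∂P, X (0, 1) a = 1 / 2) : ¬ ∀ᵐ a ∂P, QuenchedCLT (fun c => X c a) := by
  intro hclt
  obtain ⟨v, t, hM⟩ := exists_mom hX hmean hnt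
  rcases hM.v_le.lt_or_eq with hv1 | hv1
  · obtain ⟨A, B, G, η, c, N, hA, hB, hGN, hη, hc, hNAB, m0, hprob⟩ := VV_prob hX hM hv1
    have h1 : ∀ᵐ a ∂P, ∀ᶠ m : ℕ in atTop, VV A B G m (fun c => X c a) ≤ η := by
      filter_upwards [hclt] with a ha
      exact clt_VV (fun c => hX.mem c a) ha hA hB hGN hNAB
    set W : ℕ → Set Ω := fun m => {a | η < VV A B G m (fun c => X c a)} with hW
    have hWm : ∀ m, MeasurableSet (W m) := fun m =>
      measurableSet_lt measurable_const (VV_measurable hX A B G m)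
    have h2 : Tendsto (fun m => ∫ a, (W m).indicator (fun _ => (1 : ℝ)) a ∂P) atTop
        (𝓝 (∫ _, (0 : ℝ) ∂P)) := by
      apply tendsto_integral_of_dominated_convergence (fun _ => (1 : ℝ))
      · intro m
        exact (measurable_const.indicator (hWm m)).aestronglyMeasurable
      · exact integrable_const _
      · intro m
        refine Filter.Eventually.of_forall (fun a => ?_)
        by_cases ha : a ∈ W m
        · rw [indicator_of_mem ha]; simp
        · rw [indicator_of_notMem ha]; simp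
      · filter_upwards [h1] with a ha
        apply tendsto_const_nhds.congr'
        filter_upwards [ha] with m hm
        have : a ∉ W m := not_lt.2 hm
        rw [indicator_of_notMem this]
    simp only [integral_zero] at h2
    have h3 : ∀ m, ∫ a, (W m).indicator (fun _ => (1 : ℝ)) a ∂P = P.real (W m) := by
      intro m
      rw [integral_indicator_const _ (hWm m)]
      simp
    simp only [h3] at h2
    obtain ⟨m, hm1, hm2⟩ := ((h2.eventually_lt_const hc).and (eventually_ge_atTop m0)).exists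
    have := hprob m hm2
    linarith
  · -- deterministic cookies
    have h1 : ∀ᵐ a ∂P, X (0, 1) a = 0 ∨ X (0, 1) a = 1 := by
      have i2 := integrable_pow hX 2
      have h2 : ∫ a, (1 - (2 * X (0, 1) a - 1) ^ 2) ∂P = 0 := by
        rw [integral_sub (integrable_const _) i2, hM.m2, hv1]
        simp
      have h3 : ∀ a, 0 ≤ (fun a => 1 - (2 * X (0, 1) a - 1) ^ 2) a := by
        intro a
        have := hX.mem (0, 1) a
        simp only
        nlinarith
      have h4 := (integral_eq_zero_iff_of_nonneg h3 ((integrable_const _).sub i2)).1 h2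
      filter_upwards [h4] with a ha
      have h5 : 1 - (2 * X (0, 1) a - 1) ^ 2 = 0 := ha
      have h6 : X (0, 1) a * (X (0, 1) a - 1) = 0 := by nlinarith
      rcases mul_eq_zero.1 h6 with h7 | h7
      · exact Or.inl h7
      · exact Or.inr (by linarith)
    have h2 : ∀ c, ∀ᵐ a ∂P, X c a = 0 ∨ X c a = 1 := by
      intro c
      have hs : MeasurableSet {x : ℝ | x = 0 ∨ x = 1} :=
        (measurableSet_singleton (0 : ℝ)).union (measurableSet_singleton (1 : ℝ))
      exact (hX.ident c).symm.ae_snd hs h1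
    have h3 : ∀ᵐ a ∂P, ∀ c, X c a = 0 ∨ X c a = 1 := ae_all_iff.2 h2
    obtain ⟨a, ha1, ha2⟩ := (hclt.and h3).exists
    exact not_clt_of_zero_one ha2 ha1

/-! ### Existence of the environments -/

/-- The fair coin. -/
noncomputable def coin : Measure Bool :=
  (1 / 2 : ENNReal) • Measure.dirac true + (1 / 2 : ENNReal) • Measure.dirac false

instance : IsProbabilityMeasure coin := by
  constructor
  simp [coin, ENNReal.inv_two_add_inv_two]

lemma integral_coin (f : Bool → ℝ) : ∫ b, f b ∂coin = (f true + f false) / 2 := by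
  unfold coin
  rw [integral_add_measure, integral_smul_measure, integral_smul_measure, integral_dirac,
    integral_dirac]
  · simp
    ring
  · exact Integrable.smul_measure Integrable.of_finite (by simp)
  · exact Integrable.smul_measure Integrable.of_finite (by simp)

/-- Cookies `1/2 ± κ` with fair signs. -/
noncomputable def ck (κ : ℝ) (b : Bool) : ℝ := if b then 1 / 2 + κ else 1 / 2 - κ

theorem exists_env {κ : ℝ} (hκ0 : 0 < κ) (hκ1 : κ ≤ 1 / 2) :
    IIDCookies (Measure.infinitePi (fun _ : ℤ × ℕ => coin)) (fun c a => ck κ (a c)) ∧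
    (∫ a, ck κ (a ((0, 1) : ℤ × ℕ)) ∂(Measure.infinitePi (fun _ : ℤ × ℕ => coin)) = 1 / 2) ∧
    ¬ ∀ᵐ a ∂(Measure.infinitePi (fun _ : ℤ × ℕ => coin)), ck κ (a ((0, 1) : ℤ × ℕ)) = 1 / 2 := by
  have hm : Measurable (ck κ) := measurable_of_finite _
  have hmap : ∀ c : ℤ × ℕ, (Measure.infinitePi (fun _ : ℤ × ℕ => coin)).map (fun a => a c)
      = coin := fun c => (measurePreserving_eval_infinitePi (fun _ : ℤ × ℕ => coin) c).map_eq
  refine ⟨⟨?_, ?_, ?_, ?_⟩, ?_, ?_⟩
  · intro c
    exact hm.comp (measurable_pi_apply c)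
  · intro c a
    unfold ck
    split_ifs <;> constructor <;> linarith
  · exact iIndepFun_infinitePi (P := fun _ : ℤ × ℕ => coin) (X := fun _ b => ck κ b)
      (fun _ => hm)
  · intro c
    refine ⟨(hm.comp (measurable_pi_apply c)).aemeasurable,
      (hm.comp (measurable_pi_apply _)).aemeasurable, ?_⟩
    have h1 : ∀ c : ℤ × ℕ, (Measure.infinitePi (fun _ : ℤ × ℕ => coin)).map
        (fun a => ck κ (a c)) = coin.map (ck κ) := by
      intro c
      conv_rhs => rw [← hmap c]
      rw [Measure.map_map hm (measurable_pi_apply c)]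
      rfl
    rw [h1, h1]
  · have h1 := integral_map (μ := Measure.infinitePi (fun _ : ℤ × ℕ => coin))
      (φ := fun a => a ((0, 1) : ℤ × ℕ)) (measurable_pi_apply _).aemeasurable
      (f := ck κ) hm.aestronglyMeasurable
    rw [← h1, hmap, integral_coin]
    simp [ck]
  · intro h
    obtain ⟨a, ha⟩ := h.exists
    unfold ck at ha
    split_ifs at ha <;> linarith

end Q171.ERW
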